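import Pool.Agent.W2helper70.TT.Plane

/-!
# Two three-term relations have the same plane
-/

set_option autoImplicit false

namespace Pool.Agent.W2helper70.TT

open Complex

section
variable {l : ℂ} {p q p' q' : ℚ × QB} {A A' : ℂ}

/-- rational combinations of combinations -/
theorem comb_comb {u v w : ℚ × QB} {r s : ℚ} (hu : ∃ x y : ℚ, u = x • p + y • q)
    (hv : ∃ x y : ℚ, v = x • p + y • q) (hw : w = r • u + s • v) :
    ∃ x y : ℚ, w = x • p + y • q := by
  obtain ⟨x, y, rfl⟩ := hu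
  obtain ⟨x', y', rfl⟩ := hv
  refine ⟨r * x + s * x', r * y + s * y', ?_⟩
  rw [hw, smul_add, smul_add, smul_smul, smul_smul, smul_smul, smul_smul, add_smul, add_smul]
  abel

theorem Rel.comb_nc (h : Rel l p q A) {u : ℚ × QB} (hu : ∃ x y : ℚ, u = x • p + y • q)
    (hu0 : u ≠ 0) : ¬ Cst QB (E l u) := by
  obtain ⟨x, y, rfl⟩ := hu
  intro hc
  obtain ⟨rfl, rfl⟩ := h.indep hc
  exact hu0 (by simp)

/-- **The plane is unique.** -/
theorem Rel.plane (h : Rel l p q A) (h' : Rel l p' q' A') :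
    (∃ x y : ℚ, p' = x • p + y • q) ∧ (∃ x y : ℚ, q' = x • p + y • q) := by
  obtain ⟨w1, β1, hw1, hβ1, hwc1, hvc1, hall1, hm1⟩ := h.pack
  obtain ⟨w2, β2, hw2, hβ2, hwc2, hvc2, hall2, hm2⟩ := h'.pack
  -- the two directions are dependent
  have hdep : ¬ LinearIndependent ℚ ![β1, β2] := by
    intro hli
    -- the difference of the two sections
    have hg : ∃ a b : ℚ, (w1 - w2).2 = a • β1 + b • β2 := by
      by_contra hcon
      have h3 : LinearIndependent ℚ ![(w1 - w2).2, β1, β2] := by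
        refine linearIndependent_finCons.mpr ⟨hli, ?_⟩
        intro hspan
        simp only [Matrix.range_cons, Matrix.range_empty, Set.union_empty,
          Set.singleton_union] at hspan
        obtain ⟨a, b, hab⟩ := Submodule.mem_span_pair.mp hspan
        exact hcon ⟨a, b, hab.symm⟩
      apply lw3 h3
      have h4 : exp (((w1 - w2).2 : QB) : ℂ) = E l w1 / E l w2 := by
        rw [← E_sub, ← E_snd l]
        congr 1
        ext
        · simp [hw1, hw2]
        · rfl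
      rw [h4]
      obtain ⟨x, y, hx⟩ := hwc1
      obtain ⟨x', y', hx'⟩ := hwc2
      have h5 : E l w1 ∈ cl {exp (β1 : ℂ), exp (β2 : ℂ)} := by
        rw [hx]; exact cl_sub1 (cl_self (by simp)) (hall1 x y)
      have h6 : E l w2 ∈ cl {exp (β1 : ℂ), exp (β2 : ℂ)} := by
        rw [hx']; exact cl_sub1 (cl_self (by simp)) (hall2 x' y')
      exact cl_div h5 h6
    obtain ⟨a, b, hab⟩ := hg
    have hz : w1 - a • ((0, β1) : ℚ × QB) = w2 + b • ((0, β2) : ℚ × QB) := by
      have e2 : w1.2 - w2.2 = a • β1 + b • β2 := hab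
      ext
      · simp [hw1, hw2]
      · have : w1.2 - a • β1 = w2.2 + b • β2 := by
          have := e2
          rw [sub_eq_iff_eq_add] at this ⊢
          rw [this]; abel
        simpa using congrArg Subtype.val this
    have hz1 : ∃ x y : ℚ, w1 - a • ((0, β1) : ℚ × QB) = x • p + y • q :=
      comb_comb (r := 1) (s := -a) hwc1 hvc1 (by rw [one_smul, neg_smul, sub_eq_add_neg])
    have hz2 : ∃ x y : ℚ, w1 - a • ((0, β1) : ℚ × QB) = x • p' + y • q' :=
      comb_comb (r := 1) (s := b) hwc2 hvc2 (by rw [one_smul, hz])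
    have hz0 : w1 - a • ((0, β1) : ℚ × QB) ≠ 0 := by
      intro h0
      have := congrArg Prod.fst h0
      simp [hw1] at this
    have hnc := h.comb_nc hz1 hz0
    rw [cst_iff] at hnc
    have hin1 : E l (w1 - a • ((0, β1) : ℚ × QB)) ∈ cl {exp (β1 : ℂ)} := by
      obtain ⟨x, y, hx⟩ := hz1
      rw [hx]; exact hall1 x y
    have hin2 : E l (w1 - a • ((0, β1) : ℚ × QB)) ∈ cl {exp (β2 : ℂ)} := by
      obtain ⟨x, y, hx⟩ := hz2
      rw [hx]; exact hall2 x y
    exact lw2 hli (cl_sub1 hin2 (cl_exchange hin1 hnc))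
  -- so `β2 = c β1`
  have hc : ∃ c : ℚ, β2 = c • β1 := by
    by_contra hcon
    apply hdep
    rw [LinearIndependent.pair_iff' hβ1]
    intro a ha
    exact hcon ⟨a, ha.symm⟩
  obtain ⟨c, hc⟩ := hc
  have hb2 : exp (β2 : ℂ) ∈ cl {exp (β1 : ℂ)} := by
    have h1 : ((0, β2) : ℚ × QB) = c • ((0, β1) : ℚ × QB) := by
      ext
      · simp
      · simp [hc]
    obtain ⟨x, y, hx⟩ := comb_comb (r := c) (s := 0) hvc1 hvc1
      (w := (0, β2)) (by rw [zero_smul, add_zero, h1])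
    rw [← E_snd l β2, hx]
    exact hall1 x y
  have key : ∀ u : ℚ × QB, (∃ x y : ℚ, u = x • p' + y • q') → ∃ x y : ℚ, u = x • p + y • q := by
    intro u hu
    have hEu : E l u ∈ cl {exp (β1 : ℂ)} := by
      obtain ⟨x, y, hx⟩ := hu
      rw [hx]
      exact cl_sub1 hb2 (hall2 x y)
    have hEw : E l (u.1 • w1) ∈ cl {exp (β1 : ℂ)} := by
      obtain ⟨x, y, hx⟩ := comb_comb (r := u.1) (s := 0) hwc1 hwc1
        (w := u.1 • w1) (by rw [zero_smul, add_zero])
      rw [hx]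
      exact hall1 x y
    have hδ : ∃ d : ℚ, (u - u.1 • w1).2 = d • β1 := by
      by_contra hcon
      have h3 : LinearIndependent ℚ ![(u - u.1 • w1).2, β1] := by
        rw [LinearIndependent.pair_symm_iff, LinearIndependent.pair_iff' hβ1]
        intro a ha
        exact hcon ⟨a, ha.symm⟩
      apply lw2 h3
      have h4 : exp (((u - u.1 • w1).2 : QB) : ℂ) = E l u / E l (u.1 • w1) := by
        rw [← E_sub, ← E_snd l]
        congr 1
        ext
        · simp [hw1]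
        · rfl
      rw [h4]
      exact cl_div hEu hEw
    obtain ⟨d, hd⟩ := hδ
    apply comb_comb (r := u.1) (s := d) hwc1 hvc1
    ext
    · simp [hw1]
    · have e1 : u.2 - u.1 • w1.2 = d • β1 := hd
      rw [sub_eq_iff_eq_add] at e1
      have : u.2 = u.1 • w1.2 + d • β1 := by rw [e1]; abel
      simpa using congrArg Subtype.val this
  exact ⟨key p' ⟨1, 0, by simp⟩, key q' ⟨0, 1, by simp⟩⟩

/-- a power of a member of the plane is a monomial in `A` and `1 - A` -/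
theorem Rel.pow_eq (h : Rel l p q A) {u : ℚ × QB} {x y : ℚ} (hu : u = x • p + y • q) {c : ℂ}
    (hc : Cst QB c) : ∃ (N : ℕ) (X Y : ℤ) (d : ℂ), N ≠ 0 ∧ (X : ℚ) = N * x ∧ (Y : ℚ) = N * y ∧
      Cst QB d ∧ (c * E l u) ^ N = d * (A ^ X * (1 - A) ^ Y) := by
  obtain ⟨hA, ⟨a, ha, ha0, hAa⟩, b, hb, hb0, hAb⟩ := h
  obtain ⟨N, X, Y, hN, hX, hY, hNXY⟩ := clear_denoms x y p q
  have h1 := E_nsmul l N (x • p + y • q)
  rw [hNXY, TT.E_comb] at h1
  refine ⟨N, X, Y, c ^ N * ((a ^ X)⁻¹ * (b ^ Y)⁻¹), hN, hX, hY,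
    (hc.pow N).mul ((ha.zpow X).inv.mul (hb.zpow Y).inv), ?_⟩
  rw [hu, mul_pow, ← h1]
  have hA2 : A ^ X = a ^ X * E l p ^ X := by
    rw [← mul_zpow, ← hAa]
  have hB2 : (1 - A) ^ Y = b ^ Y * E l q ^ Y := by
    rw [← mul_zpow, ← hAb]
  have ha' : a ^ X ≠ 0 := zpow_ne_zero _ ha0
  have hb' : b ^ Y ≠ 0 := zpow_ne_zero _ hb0
  rw [hA2, hB2]
  field_simp

theorem Rel.mono (h : Rel l p q A) {u : ℚ × QB} {x y : ℚ} (hu : u = x • p + y • q) {B c : ℂ}
    (hc : Cst QB c) (hB : B = c * E l u) (hB0 : B ≠ 0)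
    (hmem : B ∈ IntermediateField.adjoin QB {A}) :
    ∃ (d : ℂ) (i j : ℤ), Cst QB d ∧ B = d * (A ^ i * (1 - A) ^ j) ∧ u = i • p + j • q := by
  obtain ⟨N, X, Y, d, hN, hX, hY, hd, hpow⟩ := h.pow_eq hu hc
  rw [← hB] at hpow
  obtain ⟨e, i, j, he, hBe, hXi, hYj⟩ := mono_of_mem h.1 hB0 hmem hN hd hpow
  have hNq : (N : ℚ) ≠ 0 := by exact_mod_cast hN
  have hi : x = i := by
    have : (N : ℚ) * x = N * i := by rw [← hX, hXi]; push_cast; ring
    exact mul_left_cancel₀ hNq this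
  have hj : y = j := by
    have : (N : ℚ) * y = N * j := by rw [← hY, hYj]; push_cast; ring
    exact mul_left_cancel₀ hNq this
  refine ⟨e, i, j, he, hBe, ?_⟩
  rw [hu, hi, hj, Int.cast_smul_eq_zsmul, Int.cast_smul_eq_zsmul]

theorem Rel.mem_pow (h : Rel l p q A) {u : ℚ × QB} {x y : ℚ} (hu : u = x • p + y • q) {c : ℂ}
    (hc : Cst QB c) : ∃ N : ℕ, N ≠ 0 ∧ (c * E l u) ^ N ∈ IntermediateField.adjoin QB {A} := by
  obtain ⟨N, X, Y, d, hN, hX, hY, hd, hpow⟩ := h.pow_eq hu hc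
  refine ⟨N, hN, ?_⟩
  rw [hpow]
  have hAm : A ∈ IntermediateField.adjoin QB {A} :=
    IntermediateField.mem_adjoin_simple_self QB A
  obtain ⟨d', rfl⟩ := hd
  exact mul_mem (IntermediateField.algebraMap_mem _ d')
    (mul_mem (zpow_mem hAm X) (zpow_mem (sub_mem (one_mem _) hAm) Y))

/-- **Uniqueness of the three-term relation.** -/
theorem Rel.unique (h : Rel l p q A) (h' : Rel l p' q' A') :
    (p' = p ∧ q' = q) ∨ (p' = q ∧ q' = p) ∨ (p' = -p ∧ q' = q - p) ∨ (p' = -q ∧ q' = p - q) ∨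
      (p' = p - q ∧ q' = -q) ∨ (p' = q - p ∧ q' = -p) := by
  obtain ⟨⟨x, y, hxy⟩, x', y', hxy'⟩ := h.plane h'
  have hr' := h'
  obtain ⟨hA', ⟨a', ha', ha0', hAa'⟩, b', hb', hb0', hAb'⟩ := h'
  have hA0' : A' ≠ 0 := fun h => hA' (h ▸ cst_zero)
  have hA1' : 1 - A' ≠ 0 := fun h => hA' (by rw [← sub_eq_zero.mp h]; exact cst_one)
  -- descent
  have hmem : A' ∈ IntermediateField.adjoin QB {A} := by
    obtain ⟨N, hN, h1⟩ := h.mem_pow hxy ha'
    obtain ⟨M, hM, h2⟩ := h.mem_pow hxy' hb'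
    rw [← hAa'] at h1
    rw [← hAb'] at h2
    apply mem_of_pow _ hA' (mul_ne_zero hN hM)
    · rw [pow_mul]; exact pow_mem h1 M
    · rw [mul_comm, pow_mul]; exact pow_mem h2 N
  obtain ⟨d1, i, j, hd1, hB1, hp'⟩ := h.mono hxy ha' hAa' hA0' hmem
  obtain ⟨d2, i', j', hd2, hB2, hq'⟩ := h.mono hxy' hb' hAb' hA1'
    (sub_mem (one_mem _) hmem)
  have hsum : d1 * (A ^ i * (1 - A) ^ j) + d2 * (A ^ i' * (1 - A) ^ j') = 1 := by
    rw [← hB1, ← hB2]; ring
  have n1 : ¬ Cst QB (d1 * (A ^ i * (1 - A) ^ j)) := by rwa [← hB1]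
  have n2 : ¬ Cst QB (d2 * (A ^ i' * (1 - A) ^ j')) := by
    rw [← hB2]
    intro hc
    apply hA'
    have : A' = 1 - (1 - A') := by ring
    rw [this]
    exact cst_one.sub hc
  have n3 : ¬ Cst QB (d1 * (A ^ i * (1 - A) ^ j) / (d2 * (A ^ i' * (1 - A) ^ j'))) := by
    rw [← hB1, ← hB2]
    intro hc
    apply hA'
    have h1 : (1 - A')⁻¹ = 1 + A' / (1 - A') := by field_simp; ring
    have h2 : Cst QB (1 - A')⁻¹ := by rw [h1]; exact cst_one.add hc
    have h3 : Cst QB (1 - A') := by rw [← inv_inv (1 - A')]; exact h2.inv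
    have : A' = 1 - (1 - A') := by ring
    rw [this]
    exact cst_one.sub h3
  rcases six_cases h.1 hd1 hd2 hsum n1 n2 n3 with hc | hc | hc | hc | hc | hc <;>
    obtain ⟨rfl, rfl, rfl, rfl⟩ := hc
  · left; exact ⟨by rw [hp']; simp, by rw [hq']; simp⟩
  · right; left; exact ⟨by rw [hp']; simp, by rw [hq']; simp⟩
  · right; right; left
    refine ⟨by rw [hp']; simp, ?_⟩
    rw [hq']; simp; abel
  · right; right; right; left
    refine ⟨by rw [hp']; simp, ?_⟩
    rw [hq']; simp; abel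
  · right; right; right; right; left
    refine ⟨?_, by rw [hq']; simp⟩
    rw [hp']; simp; abel
  · right; right; right; right; right
    refine ⟨?_, by rw [hq']; simp⟩
    rw [hp']; simp; abel

end

end Pool.Agent.W2helper70.TT
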