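import Pool.Agent.W2helper70.TT.Principal

/-!
# Simplex relations: they generate the ideal of all relations and are unique
-/

set_option autoImplicit false

namespace Pool.Agent.W2helper70.TT

open Complex AddMonoidAlgebra

/-- trivial units -/
theorem unit_single {u u' : GA} (h : u * u' = 1) : ∃ (w : ℚ × QB) (b : QB), b ≠ 0 ∧
    u = single w b := by
  classical
  have hu : u ≠ 0 := by rintro rfl; rw [zero_mul] at h; exact zero_ne_one h
  have hu' : u' ≠ 0 := by rintro rfl; rw [mul_zero] at h; exact zero_ne_one h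
  have hA : 0 < u.coeff.support.card := by
    rw [Finset.card_pos, Finsupp.support_nonempty_iff]
    exact fun h0 => hu (coeff_eq_zero.mp h0)
  have hB : 0 < u'.coeff.support.card := by
    rw [Finset.card_pos, Finsupp.support_nonempty_iff]
    exact fun h0 => hu' (coeff_eq_zero.mp h0)
  have hle : ¬ 1 < u.coeff.support.card * u'.coeff.support.card := by
    intro hlt
    obtain ⟨p1, h1, p2, h2, hne, hu1, hu2⟩ := TwoUniqueSums.uniqueAdd_of_one_lt_card hlt
    rw [Finset.mem_product] at h1 h2
    have key : ∀ p ∈ u.coeff.support ×ˢ u'.coeff.support,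
        UniqueAdd u.coeff.support u'.coeff.support p.1 p.2 → p.1 + p.2 = 0 := by
      intro p hp hup
      rw [Finset.mem_product] at hp
      by_contra hne0
      have h3 := coeff_mul_add_of_uniqueAdd hup
      rw [h, one_def, coeff_single, Finsupp.single_apply, if_neg (Ne.symm hne0)] at h3
      rcases mul_eq_zero.mp h3.symm with h4 | h4
      · exact Finsupp.mem_support_iff.mp hp.1 h4
      · exact Finsupp.mem_support_iff.mp hp.2 h4
    have e1 := key p1 (Finset.mem_product.mpr h1) hu1
    have e2 := key p2 (Finset.mem_product.mpr h2) hu2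
    have h5 := hu1 h2.1 h2.2 (by rw [e1, e2])
    exact hne (Prod.ext h5.1.symm h5.2.symm)
  have hc1 : u.coeff.support.card = 1 := by
    have : u.coeff.support.card * u'.coeff.support.card ≤ 1 := not_lt.mp hle
    nlinarith
  obtain ⟨w, hw⟩ := Finset.card_eq_one.mp hc1
  refine ⟨w, u.coeff w, ?_, ?_⟩
  · have : w ∈ u.coeff.support := by rw [hw]; exact Finset.mem_singleton_self w
    exact Finsupp.mem_support_iff.mp this
  · ext1
    rw [coeff_single]
    ext1 z
    rw [Finsupp.single_apply]
    split_ifs with hz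
    · rw [hz]
    · have : z ∉ u.coeff.support := by
        rw [hw, Finset.mem_singleton]; exact Ne.symm hz
      exact Finsupp.notMem_support_iff.mp this

theorem coeff_sum_single {n : ℕ} {v : Fin n → ℚ × QB} (hv : Function.Injective v)
    (c : Fin n → QB) (j : Fin n) : (∑ i, single (v i) (c i) : GA).coeff (v j) = c j := by
  classical
  rw [coeff_sum, Finsupp.finsetSum_apply, Finset.sum_eq_single j]
  · rw [coeff_single, Finsupp.single_eq_same]
  · intro i _ hij
    rw [coeff_single, Finsupp.single_apply, if_neg (fun h => hij (hv h))]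
  · intro h; exact absurd (Finset.mem_univ j) h

theorem coeff_sum_single' {n : ℕ} {v : Fin n → ℚ × QB} (c : Fin n → QB) {z : ℚ × QB}
    (hz : (∑ i, single (v i) (c i) : GA).coeff z ≠ 0) : ∃ i, v i = z := by
  classical
  by_contra hcon
  push Not at hcon
  apply hz
  rw [coeff_sum, Finsupp.finsetSum_apply]
  refine Finset.sum_eq_zero fun i _ => ?_
  rw [coeff_single, Finsupp.single_apply, if_neg (hcon i)]

/-- **A simplex relation generates the ideal of all relations.** -/
theorem simplex {l : ℂ} {m : ℕ} {v : Fin (m + 3) → ℚ × QB} {c : Fin (m + 3) → QB}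
    (hc : ∀ i, c i ≠ 0) (hv : AffineIndependent ℚ v)
    (h : ∑ i, (c i : ℂ) * E l (v i) = 0) (g : GA) :
    ev l g = 0 ↔ (∑ i, single (v i) (c i) : GA) ∣ g := by
  set p : Fin (m + 2) → ℚ × QB := fun i => v i.succ - v 0 with hp
  set a : Fin (m + 2) → QB := fun i => -(c i.succ / c 0) with ha
  have hfac : (∑ i, single (v i) (c i) : GA) = single (v 0) (-c 0) * f0 p a := by
    rw [Fin.sum_univ_succ, f0, mul_sub, Finset.mul_sum, mul_one]
    have h1 : ∀ i : Fin (m + 2), (single (v 0) (-c 0) * single (p i) (a i) : GA) =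
        single (v i.succ) (c i.succ) := by
      intro i
      rw [single_mul_single, hp, ha]
      have h0 := hc 0
      congr 1
      · simp
      · field_simp
    rw [Finset.sum_congr rfl fun i _ => h1 i]
    have h2 : (single (v 0) (-c 0) : GA) = -single (v 0) (c 0) := by
      rw [← single_neg]
    rw [h2]; abel
  constructor
  · intro hg
    have hli : LinearIndependent ℚ p := by
      have h1 := (affineIndependent_iff_linearIndependent_vsub ℚ v 0).mp hv
      have h2 := h1.comp (fun i : Fin (m + 2) => (⟨i.succ, Fin.succ_ne_zero i⟩ :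
        {x : Fin (m + 3) // x ≠ 0})) (by
          intro i j hij
          have := congrArg Subtype.val hij
          exact Fin.succ_injective _ this)
      exact h2
    obtain ⟨φ, ψ, h0, hφ, hψ0, hψ1, hψ⟩ := exists_forms hli
    have hsum : ∑ i, (a i : ℂ) * E l (p i) = 1 := by
      rw [Fin.sum_univ_succ] at h
      have hc0 : (c 0 : ℂ) ≠ 0 := fun hcon => hc 0 (Subtype.ext hcon)
      have h3 : ∀ i : Fin (m + 2), (a i : ℂ) * E l (p i) =
          -((c i.succ : ℂ) * E l (v i.succ)) / ((c 0 : ℂ) * E l (v 0)) := by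
        intro i
        have : E l (p i) = E l (v i.succ) / E l (v 0) := E_sub l _ _
        rw [this]
        simp only [ha]
        push_cast
        have := E_ne l (v 0)
        field_simp
      rw [Finset.sum_congr rfl fun i _ => h3 i, ← Finset.sum_div, Finset.sum_neg_distrib]
      have h4 := mul_ne_zero hc0 (E_ne l (v 0))
      rw [div_eq_one_iff_eq h4]
      linear_combination -h
    have hd := principal0 (φ := φ) (ψ := ψ) hli.injective (fun i => hli.ne_zero i)
      (fun i => neg_ne_zero.mpr (div_ne_zero (hc _) (hc 0))) hsum h0 hφ hψ0 hψ1 hψ hg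
    obtain ⟨q, hq⟩ := hd
    refine ⟨single (-v 0) (-c 0)⁻¹ * q, ?_⟩
    rw [hfac, hq]
    have h5 : (single (v 0) (-c 0) * single (-v 0) (-c 0)⁻¹ : GA) = 1 := by
      rw [single_mul_single, add_neg_cancel, mul_inv_cancel₀ (neg_ne_zero.mpr (hc 0))]
      rfl
    calc f0 p a * q = (single (v 0) (-c 0) * single (-v 0) (-c 0)⁻¹) * (f0 p a * q) := by
          rw [h5, one_mul]
      _ = _ := by ring
  · rintro ⟨q, rfl⟩
    rw [map_mul, map_sum]
    have : ∑ i, ev l (single (v i) (c i)) = 0 := by
      rw [← h]
      exact Finset.sum_congr rfl fun i _ => ev_single l _ _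
    rw [this, zero_mul]

/-- **Uniqueness of simplex relations.** -/
theorem simplex_unique {l : ℂ} {m m' : ℕ} {v : Fin (m + 3) → ℚ × QB} {c : Fin (m + 3) → QB}
    {v' : Fin (m' + 3) → ℚ × QB} {c' : Fin (m' + 3) → QB}
    (hc : ∀ i, c i ≠ 0) (hv : AffineIndependent ℚ v)
    (h : ∑ i, (c i : ℂ) * E l (v i) = 0)
    (hc' : ∀ i, c' i ≠ 0) (hv' : AffineIndependent ℚ v')
    (h' : ∑ i, (c' i : ℂ) * E l (v' i) = 0) :
    ∃ (σ : Fin (m + 3) ≃ Fin (m' + 3)) (w : ℚ × QB) (b : QB), b ≠ 0 ∧
      ∀ i, v' (σ i) = v i + w ∧ c' (σ i) = b * c i := by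
  classical
  have hev : ev l (∑ i, single (v i) (c i)) = 0 := by
    rw [map_sum, ← h]; exact Finset.sum_congr rfl fun i _ => ev_single l _ _
  have hev' : ev l (∑ i, single (v' i) (c' i)) = 0 := by
    rw [map_sum, ← h']; exact Finset.sum_congr rfl fun i _ => ev_single l _ _
  obtain ⟨q, hq⟩ := (simplex hc hv h _).mp hev'
  obtain ⟨q', hq'⟩ := (simplex hc' hv' h' _).mp hev
  have hf : (∑ i, single (v i) (c i) : GA) ≠ 0 := by
    intro hcon
    have := coeff_sum_single hv.injective c 0
    rw [hcon, coeff_zero, Finsupp.zero_apply] at this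
    exact hc 0 this.symm
  have hqq : q * q' = 1 := by
    have h1 : (∑ i, single (v i) (c i) : GA) * (q * q') =
        (∑ i, single (v i) (c i) : GA) * 1 := by
      rw [← mul_assoc, ← hq, ← hq', mul_one]
    exact mul_left_cancel₀ hf h1
  obtain ⟨w, b, hb, rfl⟩ := unit_single hqq
  have hq2 : (∑ i, single (v' i) (c' i) : GA) = ∑ i, single (v i + w) (c i * b) := by
    rw [hq, Finset.sum_mul]
    exact Finset.sum_congr rfl fun i _ => single_mul_single _ _ _ _
  have hinj : Function.Injective (fun i => v i + w) := fun i j hij =>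
    hv.injective (add_right_cancel hij)
  -- the bijection
  have hex : ∀ i, ∃ j, v' j = v i + w := by
    intro i
    apply coeff_sum_single' c'
    rw [hq2]
    have := coeff_sum_single (v := fun i => v i + w) hinj (fun i => c i * b) i
    rw [this]
    exact mul_ne_zero (hc i) hb
  choose s hs using hex
  have hsinj : Function.Injective s := by
    intro i j hij
    apply hinj
    show v i + w = v j + w
    rw [← hs i, ← hs j, hij]
  have hssurj : Function.Surjective s := by
    intro j
    have h1 : (∑ i, single (v i + w) (c i * b) : GA).coeff (v' j) ≠ 0 := by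
      rw [← hq2, coeff_sum_single hv'.injective c' j]
      exact hc' j
    obtain ⟨i, hi⟩ := coeff_sum_single' (v := fun i => v i + w) _ h1
    exact ⟨i, hv'.injective (by rw [hs i]; exact hi)⟩
  refine ⟨Equiv.ofBijective s ⟨hsinj, hssurj⟩, w, b, hb, fun i => ⟨hs i, ?_⟩⟩
  show c' (s i) = b * c i
  have h1 := coeff_sum_single hv'.injective c' (s i)
  rw [hq2, hs i] at h1
  have h2 := coeff_sum_single (v := fun i => v i + w) hinj (fun i => c i * b) i
  rw [← h1, mul_comm]
  exact h2

end Pool.Agent.W2helper70.TT
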