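import Mathlib

/-!
# Fermat curves `a x ^ N + b y ^ N = s` over an algebraically closed field are irreducible
-/

set_option autoImplicit false

namespace Pool.Agent.W2helper70.TT

open Polynomial

variable {k C : Type*} [Field k] [Field C] [Algebra k C]

/-- the polynomial `X ^ N + (u T ^ N - w)` -/
noncomputable def fpoly (N : ℕ) (u w : k) : k[X][X] :=
  X ^ N + Polynomial.C (Polynomial.C u * X ^ N - Polynomial.C w)

theorem fpoly_monic {N : ℕ} (hN : N ≠ 0) (u w : k) : (fpoly N u w).Monic :=
  monic_X_pow_add_C _ hN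

theorem fpoly_natDegree {N : ℕ} (u w : k) : (fpoly N u w).natDegree = N :=
  natDegree_X_pow_add_C

theorem fpoly_coeff_zero {N : ℕ} (hN : N ≠ 0) (u w : k) :
    (fpoly N u w).coeff 0 = Polynomial.C u * X ^ N - Polynomial.C w := by
  unfold fpoly
  rw [coeff_add, coeff_C_zero, coeff_X_pow, if_neg (Ne.symm hN), zero_add]

theorem fpoly_coeff {N n : ℕ} (h0 : n ≠ 0) (hn : n < N) (u w : k) :
    (fpoly N u w).coeff n = 0 := by
  unfold fpoly
  rw [coeff_add, coeff_X_pow, if_neg (by omega), coeff_C_of_ne_zero h0, add_zero]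

theorem fpoly_irreducible [IsAlgClosed k] [CharZero k] {N : ℕ} (hN : N ≠ 0) {u w : k}
    (hu : u ≠ 0) (hw : w ≠ 0) : Irreducible (fpoly N u w) := by
  obtain ⟨ρ, hρ⟩ := IsAlgClosed.exists_pow_nat_eq (w / u) (Nat.pos_of_ne_zero hN)
  have hρ0 : ρ ≠ 0 := by
    rintro rfl
    rw [zero_pow hN] at hρ
    exact div_ne_zero hw hu hρ.symm
  have hroot : ((Polynomial.C u * X ^ N - Polynomial.C w : k[X])).IsRoot ρ := by
    simp only [IsRoot.def, eval_sub, eval_mul, eval_C, eval_pow, eval_X]
    rw [hρ]; field_simp; ring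
  have hprime : Prime (X - Polynomial.C ρ : k[X]) := prime_X_sub_C ρ
  have hP : (Ideal.span {(X - Polynomial.C ρ : k[X])}).IsPrime :=
    (Ideal.span_singleton_prime hprime.ne_zero).mpr hprime
  refine irreducible_of_eisenstein_criterion hP ?_ ?_ ?_ ?_ (fpoly_monic hN u w).isPrimitive
  · rw [(fpoly_monic hN u w).leadingCoeff]
    intro h1
    exact hP.ne_top ((Ideal.eq_top_iff_one _).mpr h1)
  · intro n hn
    rw [degree_eq_natDegree (fpoly_monic hN u w).ne_zero, fpoly_natDegree] at hn
    have hn' : n < N := by exact_mod_cast hn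
    rcases Nat.eq_zero_or_pos n with rfl | hn0
    · rw [fpoly_coeff_zero hN, Ideal.mem_span_singleton]
      exact dvd_iff_isRoot.mpr hroot
    · rw [fpoly_coeff (by omega) hn']
      exact Ideal.zero_mem _
  · rw [degree_eq_natDegree (fpoly_monic hN u w).ne_zero, fpoly_natDegree]
    exact_mod_cast Nat.pos_of_ne_zero hN
  · rw [fpoly_coeff_zero hN, Ideal.span_singleton_pow, Ideal.mem_span_singleton]
    intro hdvd
    obtain ⟨g, hg⟩ := hdvd
    have hder := congrArg (fun p => (derivative p).eval ρ) hg
    simp [derivative_mul, derivative_pow] at hder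
    rcases hder with hder | hder
    · exact hu hder
    · rcases hder with hder | hder
      · exact hN hder
      · exact hρ0 hder.1

/-- **Fermat curves.** A polynomial of degree `< N` in `x` with coefficients in `k[y]` which
vanishes is zero. -/
theorem fer [IsAlgClosed k] [CharZero k] {N : ℕ} (hN : N ≠ 0) {a b s : k} (ha : a ≠ 0)
    (hb : b ≠ 0) (hs : s ≠ 0) {x y : C} (hy : Transcendental k y)
    (hxy : algebraMap k C a * x ^ N + algebraMap k C b * y ^ N = algebraMap k C s)
    (Q : k[X][X]) (hdeg : Q.natDegree < N)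
    (hQ : Q.eval₂ (aeval y : k[X] →ₐ[k] C).toRingHom x = 0) : Q = 0 := by
  set φ : k[X] →+* C := (aeval y : k[X] →ₐ[k] C).toRingHom with hφ
  have hφi : Function.Injective φ := transcendental_iff_injective.mp hy
  set P := fpoly N (b / a) (s / a) with hP
  have hPirr : Irreducible P := fpoly_irreducible hN (div_ne_zero hb ha) (div_ne_zero hs ha)
  have hPm : P.Monic := fpoly_monic hN _ _
  have hPx : P.eval₂ φ x = 0 := by
    have ha' : algebraMap k C a ≠ 0 := by
      rw [Ne, map_eq_zero]; exact ha
    have h1 : φ (Polynomial.C (b / a) * X ^ N - Polynomial.C (s / a)) =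
        algebraMap k C b / algebraMap k C a * y ^ N - algebraMap k C s / algebraMap k C a := by
      show aeval y (Polynomial.C (b / a) * X ^ N - Polynomial.C (s / a)) = _
      simp only [map_sub, map_mul, aeval_C, map_pow, aeval_X, map_div₀]
    rw [hP, fpoly, eval₂_add, eval₂_pow, eval₂_X, eval₂_C, h1]
    field_simp
    linear_combination hxy
  let ψ : FractionRing k[X] →+* C := IsFractionRing.lift hφi
  let _ : Algebra (FractionRing k[X]) C := ψ.toAlgebra
  have hcomp : (algebraMap (FractionRing k[X]) C).comp (algebraMap k[X] (FractionRing k[X])) = φ := by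
    refine RingHom.ext fun z => ?_
    exact IsFractionRing.lift_algebraMap hφi z
  have hirr : Irreducible (P.map (algebraMap k[X] (FractionRing k[X]))) :=
    (hPm.irreducible_iff_irreducible_map_fraction_map).mp hPirr
  have haev : ∀ R : k[X][X], aeval x (R.map (algebraMap k[X] (FractionRing k[X]))) =
      R.eval₂ φ x := by
    intro R
    rw [aeval_def, eval₂_map, hcomp]
  have hmin : P.map (algebraMap k[X] (FractionRing k[X])) = minpoly (FractionRing k[X]) x :=
    minpoly.eq_of_irreducible_of_monic hirr (by rw [haev, hPx]) (hPm.map _)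
  have hdvd : P.map (algebraMap k[X] (FractionRing k[X])) ∣
      Q.map (algebraMap k[X] (FractionRing k[X])) := by
    rw [hmin]
    exact minpoly.dvd _ _ (by rw [haev, hQ])
  have hinj : Function.Injective (algebraMap k[X] (FractionRing k[X])) :=
    IsFractionRing.injective _ _
  by_contra hQ0
  have hQ0' : Q.map (algebraMap k[X] (FractionRing k[X])) ≠ 0 := by
    rw [Ne, Polynomial.map_eq_zero_iff hinj]; exact hQ0
  have := natDegree_le_of_dvd hdvd hQ0'
  rw [natDegree_map_eq_of_injective hinj, natDegree_map_eq_of_injective hinj, hP,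
    fpoly_natDegree] at this
  omega

end Pool.Agent.W2helper70.TT
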