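import Pool.Agent.W2helper70.TT.Plane

/-!
# Algebraic independence along a complement of a relation
-/

set_option autoImplicit false

namespace Pool.Agent.W2helper70.TT

open Complex

section
variable {Y : Type*} [AddCommGroup Y] [Module ℚ Y]

theorem li_snd {K : Type*} [AddCommGroup K] [Module ℚ K] {n : ℕ} (f : Fin n → K)
    (hf : LinearIndependent ℚ f) (g : K →ₗ[ℚ] ℚ × Y) (hg : Function.Injective g)
    (h0 : ∀ i, (g (f i)).1 = 0) : LinearIndependent ℚ (fun i => (g (f i)).2) := by
  have hf' := Fintype.linearIndependent_iff.mp hf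
  refine Fintype.linearIndependent_iff.mpr fun c hc => ?_
  apply hf' c
  apply hg
  rw [map_zero, map_sum]
  apply Prod.ext
  · rw [Prod.fst_sum]
    simp [h0]
  · rw [Prod.snd_sum]
    simpa using hc

theorem exists_ker {U : Type*} [AddCommGroup U] [Module ℚ U] [FiniteDimensional ℚ U] {m : ℕ}
    (hdim : Module.finrank ℚ U = m + 1) (φ : U →ₗ[ℚ] ℚ) :
    ∃ f : Fin m → U, LinearIndependent ℚ f ∧ ∀ i, φ (f i) = 0 := by
  have hker : m ≤ Module.finrank ℚ (LinearMap.ker φ) := by
    have h1 := LinearMap.finrank_range_add_finrank_ker φ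
    have h2 : Module.finrank ℚ (LinearMap.range φ) ≤ 1 := by
      have := Submodule.finrank_le (LinearMap.range φ)
      rwa [Module.finrank_self] at this
    omega
  obtain ⟨f, hf⟩ := exists_linearIndependent_of_le_finrank hker
  exact ⟨fun i => f i, hf.map' _ (Submodule.ker_subtype _), fun i => (f i).2⟩

/-- Elements with first coordinate zero in the span of `B` and `p`. -/
theorem exists_family {B : Set (ℚ × Y)} [Fintype B]
    (hB : LinearIndependent ℚ (fun v : B => (v : ℚ × Y))) {p : ℚ × Y}
    (hp : p ∉ Submodule.span ℚ B) :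
    ∃ β : Fin (Fintype.card B) → Y, LinearIndependent ℚ β ∧
      ∀ i, ((0, β i) : ℚ × Y) ∈ Submodule.span ℚ (insert p B) := by
  classical
  have hfin : B.Finite := Set.toFinite B
  set U : Submodule ℚ (ℚ × Y) := Submodule.span ℚ (insert p B) with hU
  have hfd : FiniteDimensional ℚ U := FiniteDimensional.span_of_finite ℚ (hfin.insert p)
  have hpB : p ∉ B := fun h => hp (Submodule.subset_span h)
  have hdim : Module.finrank ℚ U = Fintype.card B + 1 := by
    have hli : LinearIndepOn ℚ id (insert p B) :=
      (linearIndepOn_id_insert hpB).mpr ⟨hB, hp⟩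
    have hft : Fintype (insert p B : Set (ℚ × Y)) := Fintype.ofFinite _
    have h1 := finrank_span_set_eq_card (s := insert p B) hli
    rw [hU, h1, Set.toFinset_card]
    rw [← Nat.card_eq_fintype_card, ← Nat.card_eq_fintype_card, Nat.card_coe_set_eq,
      Nat.card_coe_set_eq, Set.ncard_insert_of_notMem hpB hfin]
  obtain ⟨f, hf, hf0⟩ := exists_ker hdim ((LinearMap.fst ℚ ℚ Y).comp U.subtype)
  refine ⟨fun i => (U.subtype (f i)).2, li_snd f hf U.subtype Subtype.val_injective hf0, ?_⟩
  intro i
  have h1 : ((0, (U.subtype (f i)).2) : ℚ × Y) = U.subtype (f i) :=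
    Prod.ext (hf0 i).symm rfl
  rw [h1]
  exact (f i).2

end

theorem cl_one {s : Set ℂ} : (1 : ℂ) ∈ cl s := cl_of_alg isAlgebraic_one

/-- rational multiples -/
theorem E_smul_mem {l : ℂ} {s : Set ℂ} {v : ℚ × QB} (h : E l v ∈ cl s) (x : ℚ) :
    E l (x • v) ∈ cl s := by
  have h1 : x.den • (x • v) = x.num • v := by
    rw [← Nat.cast_smul_eq_nsmul ℚ, ← Int.cast_smul_eq_zsmul ℚ, smul_smul]
    congr 1
    rw [mul_comm]; exact Rat.mul_den_eq_num x
  apply cl_of_pow x.den_ne_zero
  rw [← E_nsmul, h1, E_zsmul]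
  exact cl_zpow h _

theorem E_span {l : ℂ} {s : Set ℂ} {B : Set (ℚ × QB)} (h : ∀ v ∈ B, E l v ∈ cl s)
    {v : ℚ × QB} (hv : v ∈ Submodule.span ℚ B) : E l v ∈ cl s := by
  induction hv using Submodule.span_induction with
  | mem v hv => exact h v hv
  | zero => rw [E_zero]; exact cl_one
  | add u v _ _ hu hv => rw [E_add]; exact cl_mul hu hv
  | smul x v _ hv => exact E_smul_mem hv x

/-- **Independence.** Let `B` be a finite rationally independent set, `p` outside its span, and
`E p` algebraic over the field generated by `E B`. Then `E B` is algebraically independent. -/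
theorem indep_of_rel {l : ℂ} {B : Set (ℚ × QB)} (hfin : B.Finite)
    (hB : LinearIndependent ℚ (fun v : B => (v : ℚ × QB))) {p : ℚ × QB}
    (hp : p ∉ Submodule.span ℚ B) (hrel : E l p ∈ cl (E l '' B)) :
    (AlgebraicIndependent.matroid ℚ ℂ).Indep (E l '' B) ∧ Set.InjOn (E l) B := by
  classical
  have hft : Fintype B := hfin.fintype
  obtain ⟨β, hβli, hβ⟩ := exists_family hB hp
  have halg := lw_indep β hβli
  set M := AlgebraicIndependent.matroid ℚ ℂ with hM
  set I : Set ℂ := Set.range (fun i => exp (β i : ℂ)) with hI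
  have hIind : M.Indep I := by
    rw [hM, AlgebraicIndependent.matroid_indep_iff]
    exact halg.coe_range
  have hIcard : I.encard = Fintype.card B := by
    rw [hI, ← Set.image_univ, halg.injective.injOn.encard_image, Set.encard_univ]
    simp
  have hsub : I ⊆ M.closure (E l '' B) := by
    rintro z ⟨i, rfl⟩
    show exp (β i : ℂ) ∈ cl (E l '' B)
    rw [← E_snd l]
    refine E_span (s := E l '' B) ?_ (hβ i)
    intro v hv
    rcases hv with rfl | hv
    · exact hrel
    · exact cl_self ⟨v, hv, rfl⟩
  have hrk : (Fintype.card B : ℕ∞) ≤ M.eRk (E l '' B) := by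
    rw [← hIcard, ← hIind.eRk_eq_encard, ← M.eRk_closure_eq (E l '' B)]
    exact M.eRk_mono hsub
  have hle : (E l '' B).encard ≤ Fintype.card B := by
    have := Set.encard_image_le (E l) B
    refine this.trans (le_of_eq ?_)
    rw [← Set.coe_fintypeCard]
  have heq : (E l '' B).encard = B.encard := by
    apply le_antisymm (Set.encard_image_le _ _)
    rw [← Set.coe_fintypeCard B]
    exact hrk.trans (M.eRk_le_encard _)
  refine ⟨?_, ?_⟩
  · rw [Matroid.indep_iff_eRk_eq_encard_of_finite (hfin.image _)]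
    exact le_antisymm (M.eRk_le_encard _) (hle.trans hrk)
  · exact hfin.injOn_of_encard_image_eq heq

end Pool.Agent.W2helper70.TT
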