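import Pool.Agent.W2helper70.TT.Free

/-!
# Linear independence of the numbers `E v` on a free subspace
-/

set_option autoImplicit false

namespace Pool.Agent.W2helper70.TT

open Complex

section
variable {k C : Type*} [Field k] [Field C] [Algebra k C]

/-- Laurent monomials in algebraically independent elements are linearly independent. -/
theorem laurent {ι σ : Type*} [Fintype ι] {x : ι → C} (hx : AlgebraicIndependent k x)
    (hx0 : ∀ i, x i ≠ 0) (S : Finset σ) (n : σ → ι → ℤ) (hn : Set.InjOn n S) (c : σ → k)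
    (h : ∑ v ∈ S, algebraMap k C (c v) * ∏ i, x i ^ n v i = 0) : ∀ v ∈ S, c v = 0 := by
  classical
  set n0 : ι → ℕ := fun i => ∑ v ∈ S, (n v i).natAbs with hn0
  have hpos : ∀ v ∈ S, ∀ i, 0 ≤ n v i + n0 i := by
    intro v hv i
    have h1 : (n v i).natAbs ≤ n0 i :=
      Finset.single_le_sum (f := fun v => (n v i).natAbs) (fun _ _ => Nat.zero_le _) hv
    omega
  set m : σ → (ι →₀ ℕ) := fun v => Finsupp.equivFunOnFinite.symm
    (fun i => (n v i + n0 i).toNat) with hm
  have hmv : ∀ v i, m v i = (n v i + n0 i).toNat := fun v i => rfl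
  have hminj : Set.InjOn m S := by
    intro v hv w hw hvw
    apply hn hv hw
    funext i
    have h1 := DFunLike.congr_fun hvw i
    rw [hmv, hmv] at h1
    have h2 := hpos v hv i
    have h3 := hpos w hw i
    omega
  set P : MvPolynomial ι k := ∑ v ∈ S, MvPolynomial.monomial (m v) (c v) with hP
  have hP0 : MvPolynomial.aeval x P = 0 := by
    rw [hP, map_sum]
    have h1 : ∑ v ∈ S, MvPolynomial.aeval x (MvPolynomial.monomial (m v) (c v)) =
        (∏ i, x i ^ n0 i) * ∑ v ∈ S, algebraMap k C (c v) * ∏ i, x i ^ n v i := by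
      rw [Finset.mul_sum]
      refine Finset.sum_congr rfl fun v hv => ?_
      rw [MvPolynomial.aeval_monomial, Finsupp.prod_fintype _ _ (fun i => pow_zero _)]
      have h2 : ∏ i, x i ^ m v i = (∏ i, x i ^ n0 i) * ∏ i, x i ^ n v i := by
        rw [← Finset.prod_mul_distrib]
        refine Finset.prod_congr rfl fun i _ => ?_
        rw [← zpow_natCast (x i) (m v i), hmv, Int.toNat_of_nonneg (hpos v hv i), zpow_add₀ (hx0 i),
          zpow_natCast, mul_comm]
      rw [h2]; ring
    rw [h1, h, mul_zero]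
  have hPz : P = 0 := by
    rw [algebraicIndependent_iff] at hx
    exact hx P hP0
  intro v hv
  have h3 := congrArg (MvPolynomial.coeff (m v)) hPz
  rw [hP, MvPolynomial.coeff_sum, MvPolynomial.coeff_zero,
    Finset.sum_eq_single v (fun w hw hwv => ?_) (fun h => absurd hv h)] at h3
  · simpa using h3
  · rw [MvPolynomial.coeff_monomial, if_neg]
    intro hh
    exact hwv (hminj hw hv hh)

end

theorem E_sum {ι : Type*} (l : ℂ) (s : Finset ι) (v : ι → ℚ × QB) :
    E l (∑ i ∈ s, v i) = ∏ i ∈ s, E l (v i) := by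
  classical
  induction s using Finset.induction_on with
  | empty => simp [E_zero]
  | insert a s ha ih => rw [Finset.sum_insert ha, Finset.prod_insert ha, E_add, ih]

/-- the numbers `E v` for `v` in a rationally independent subset of `H` are algebraically
independent -/
def FreeOn (l : ℂ) (H : Submodule ℚ (ℚ × QB)) : Prop :=
  ∀ B : Set (ℚ × QB), B.Finite → B ⊆ H → LinearIndependent ℚ (fun v : B => (v : ℚ × QB)) →
    (AlgebraicIndependent.matroid ℚ ℂ).Indep (E l '' B) ∧ Set.InjOn (E l) B

theorem FreeOn.family {l : ℂ} {H : Submodule ℚ (ℚ × QB)} (hH : FreeOn l H) {ι : Type*} [Finite ι]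
    (u : ι → ℚ × QB) (hu : ∀ i, u i ∈ H) (hli : LinearIndependent ℚ u) :
    AlgebraicIndependent ℚ (fun i => E l (u i)) := by
  have hinj := hli.injective
  obtain ⟨h1, h2⟩ := hH (Set.range u) (Set.finite_range u) (by rintro _ ⟨i, rfl⟩; exact hu i)
    hli.linearIndepOn_id
  have hi : Function.Injective (fun i => E l (u i)) := by
    intro i j hij
    exact hinj (h2 ⟨i, rfl⟩ ⟨j, rfl⟩ hij)
  rw [← algebraicIndependent_subtype_range hi]
  rw [AlgebraicIndependent.matroid_indep_iff] at h1
  have h3 : Set.range (fun i => E l (u i)) = E l '' Set.range u := by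
    rw [← Set.range_comp]; rfl
  rw [h3]
  exact h1

/-- **Linear independence.** -/
theorem FreeOn.li {l : ℂ} {H : Submodule ℚ (ℚ × QB)} (hH : FreeOn l H) {σ : Type*}
    (S : Finset σ) (w : σ → ℚ × QB) (hw : Set.InjOn w S) (hS : ∀ i ∈ S, w i ∈ H) (c : σ → QB)
    (h : ∑ i ∈ S, (c i : ℂ) * E l (w i) = 0) : ∀ i ∈ S, c i = 0 := by
  classical
  set Γ : Submodule ℤ (ℚ × QB) := Submodule.span ℤ ((S.image w : Finset (ℚ × QB)) :
    Set (ℚ × QB)) with hΓ
  have hfin : Module.Finite ℤ Γ := Module.Finite.span_finset ℤ (S.image w)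
  have hfree : Module.Free ℤ Γ := inferInstance
  set γ := Module.Free.chooseBasis ℤ Γ with hγ
  have hΓH : ∀ v ∈ Γ, v ∈ H := by
    intro v hv
    have : Γ ≤ H.restrictScalars ℤ := by
      rw [hΓ, Submodule.span_le]
      intro z hz
      obtain ⟨i, hi, rfl⟩ := Finset.mem_image.mp (Finset.mem_coe.mp hz)
      exact hS i hi
    exact this hv
  set u : Module.Free.ChooseBasisIndex ℤ Γ → ℚ × QB := fun i => (γ i : ℚ × QB) with hu
  have hli : LinearIndependent ℚ u := by
    rw [← LinearIndependent.iff_fractionRing ℤ ℚ]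
    exact γ.linearIndependent.map' Γ.subtype (Submodule.ker_subtype _)
  have halg : AlgebraicIndependent ℚ (fun i => E l (u i)) :=
    hH.family u (fun i => hΓH _ (γ i).2) hli
  have halg' : AlgebraicIndependent QB (fun i => E l (u i)) := halg.algebraicClosure
  have hmem : ∀ i : S, w i ∈ Γ := fun i => Submodule.subset_span
    (Finset.mem_coe.mpr (Finset.mem_image_of_mem w i.2))
  have hrep : ∀ x : Γ, (x : ℚ × QB) = ∑ i, γ.repr x i • u i := by
    intro x
    conv_lhs => rw [← γ.sum_repr x]
    rw [AddSubmonoidClass.coe_finsetSum]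
    rfl
  have key := laurent halg' (fun i => E_ne l _) (Finset.univ : Finset S)
    (fun v i => γ.repr ⟨w v, hmem v⟩ i) (by
      intro v _ v' _ hvw
      apply Subtype.ext
      apply hw v.2 v'.2
      rw [show w v = ((⟨w v, hmem v⟩ : Γ) : ℚ × QB) from rfl,
        show w v' = ((⟨w v', hmem v'⟩ : Γ) : ℚ × QB) from rfl, hrep, hrep ⟨w v', hmem v'⟩]
      refine Finset.sum_congr rfl fun i _ => ?_
      have := congrFun hvw i
      simp only at this
      rw [this]) (fun v => c v) (by
      rw [← h, ← Finset.sum_coe_sort S]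
      refine Finset.sum_congr rfl fun v _ => ?_
      have h1 : E l (w v) = ∏ i, E l (u i) ^ (γ.repr ⟨w v, hmem v⟩ i) := by
        conv_lhs => rw [show w v = ((⟨w v, hmem v⟩ : Γ) : ℚ × QB) from rfl, hrep]
        rw [E_sum]
        refine Finset.prod_congr rfl fun i _ => ?_
        rw [E_zsmul]
      rw [h1]
      rfl)
  intro v hv
  exact key ⟨v, hv⟩ (Finset.mem_univ _)

end Pool.Agent.W2helper70.TT
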