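import Pool.Agent.W2helper70.TT.Rank2

/-!
# The solutions of the unit equation on the line without three points
-/

set_option autoImplicit false
set_option maxHeartbeats 4000000

namespace Pool.Agent.W2helper70.TT

open Polynomial

variable {k C : Type*} [Field k] [Field C] [Algebra k C]

theorem one_term {d f : k} (hd : d ≠ 0) {a b : ℕ}
    (h : Polynomial.C d * (X ^ a * (1 - X) ^ b) + Polynomial.C f = 0) : a = 0 ∧ b = 0 := by
  have hne : (Polynomial.C d * (X ^ a * (1 - X) ^ b) : k[X]) ≠ 0 := by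
    have h1 : (1 - X : k[X]) ≠ 0 := by
      intro h0
      have := congrArg (eval 0) h0
      simp at this
    exact mul_ne_zero (C_ne_zero.mpr hd) (mul_ne_zero (pow_ne_zero _ X_ne_zero) (pow_ne_zero _ h1))
  constructor
  · by_contra ha
    have h0 := congrArg (eval 0) h
    simp only [eval_add, eval_mul, eval_pow, eval_X, eval_sub, eval_one, eval_C, eval_zero,
      zero_pow ha, zero_mul, mul_zero, zero_add] at h0
    rw [h0, map_zero, add_zero] at h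
    exact hne h
  · by_contra hb
    have h0 := congrArg (eval 1) h
    simp only [eval_add, eval_mul, eval_pow, eval_X, eval_sub, eval_one, eval_C, eval_zero,
      sub_self, zero_pow hb, mul_zero, zero_add] at h0
    rw [h0, map_zero, add_zero] at h
    exact hne h

theorem two_term [CharZero k] {d e f : k} (hd : d ≠ 0) (he : e ≠ 0) {a b : ℕ}
    (h : Polynomial.C d * X ^ a + Polynomial.C e * (1 - X) ^ b + Polynomial.C f = 0) :
    (a = 0 ∧ b = 0) ∨ (a = 1 ∧ b = 1) := by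
  rcases Nat.eq_zero_or_pos a with ha | ha
  · left
    refine ⟨ha, ?_⟩
    subst ha
    have h' : Polynomial.C e * (X ^ 0 * (1 - X) ^ b) + Polynomial.C (d + f) = 0 := by
      rw [map_add]
      linear_combination h
    exact (one_term he h').2
  rcases Nat.eq_zero_or_pos b with hb | hb
  · left
    refine ⟨?_, hb⟩
    subst hb
    have h' : Polynomial.C d * (X ^ a * (1 - X) ^ 0) + Polynomial.C (e + f) = 0 := by
      rw [map_add]
      linear_combination h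
    exact (one_term hd h').1
  right
  have hder := congrArg derivative h
  simp only [derivative_add, derivative_mul, derivative_C, derivative_pow,
    derivative_sub, derivative_one, derivative_X, zero_mul, zero_add, add_zero, map_zero,
    zero_sub] at hder
  have ha' : (a : k) ≠ 0 := by exact_mod_cast ha.ne'
  have hb' : (b : k) ≠ 0 := by exact_mod_cast hb.ne'
  constructor
  · by_contra h1
    have h2 : a - 1 ≠ 0 := by omega
    have h0 := congrArg (eval 0) hder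
    simp [zero_pow h2] at h0
    rcases h0 with h0 | h0
    · exact he h0
    · exact hb.ne' h0
  · by_contra h1
    have h2 : b - 1 ≠ 0 := by omega
    have h0 := congrArg (eval 1) hder
    simp [zero_pow h2] at h0
    rcases h0 with h0 | h0
    · exact hd h0
    · exact ha.ne' h0

/-- the exponents, natural numbers -/
theorem three_term [CharZero k] {d1 d2 d3 : k} (h1 : d1 ≠ 0) (h2 : d2 ≠ 0) (h3 : d3 ≠ 0)
    {a1 a2 a3 b1 b2 b3 : ℕ}
    (h : Polynomial.C d1 * (X ^ a1 * (1 - X) ^ b1) + Polynomial.C d2 * (X ^ a2 * (1 - X) ^ b2) +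
      Polynomial.C d3 * (X ^ a3 * (1 - X) ^ b3) = 0)
    (ha : a1 = 0 ∨ a2 = 0 ∨ a3 = 0) (hb : b1 = 0 ∨ b2 = 0 ∨ b3 = 0) :
    (a1 = 0 ∧ a2 = 0 ∧ a3 = 0 ∧ b1 = 0 ∧ b2 = 0 ∧ b3 = 0) ∨
    (a1 = 1 ∧ a2 = 0 ∧ a3 = 0 ∧ b1 = 0 ∧ b2 = 1 ∧ b3 = 0) ∨
    (a1 = 1 ∧ a2 = 0 ∧ a3 = 0 ∧ b1 = 0 ∧ b2 = 0 ∧ b3 = 1) ∨
    (a1 = 0 ∧ a2 = 1 ∧ a3 = 0 ∧ b1 = 1 ∧ b2 = 0 ∧ b3 = 0) ∨
    (a1 = 0 ∧ a2 = 1 ∧ a3 = 0 ∧ b1 = 0 ∧ b2 = 0 ∧ b3 = 1) ∨
    (a1 = 0 ∧ a2 = 0 ∧ a3 = 1 ∧ b1 = 1 ∧ b2 = 0 ∧ b3 = 0) ∨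
    (a1 = 0 ∧ a2 = 0 ∧ a3 = 1 ∧ b1 = 0 ∧ b2 = 1 ∧ b3 = 0) := by
  have e0 : (a1 = 0 ∧ a2 = 0) ∨ (a1 = 0 ∧ a3 = 0) ∨ (a2 = 0 ∧ a3 = 0) := by
    have h0 := congrArg (eval 0) h
    simp only [eval_add, eval_mul, eval_pow, eval_X, eval_sub, eval_one, eval_C, eval_zero,
      sub_zero, one_pow, mul_one] at h0
    by_contra hcon
    push Not at hcon
    rcases ha with ha | ha | ha
    · have g2 : a2 ≠ 0 := hcon.1 ha
      have g3 : a3 ≠ 0 := hcon.2.1 ha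
      rw [ha, zero_pow g2, zero_pow g3] at h0
      simp at h0
      exact h1 h0
    · have g1 : a1 ≠ 0 := fun h => hcon.1 h ha
      have g3 : a3 ≠ 0 := hcon.2.2 ha
      rw [ha, zero_pow g1, zero_pow g3] at h0
      simp at h0
      exact h2 h0
    · have g1 : a1 ≠ 0 := fun h => hcon.2.1 h ha
      have g2 : a2 ≠ 0 := fun h => hcon.2.2 h ha
      rw [ha, zero_pow g1, zero_pow g2] at h0
      simp at h0
      exact h3 h0
  have e1 : (b1 = 0 ∧ b2 = 0) ∨ (b1 = 0 ∧ b3 = 0) ∨ (b2 = 0 ∧ b3 = 0) := by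
    have h0 := congrArg (eval 1) h
    simp only [eval_add, eval_mul, eval_pow, eval_X, eval_sub, eval_one, eval_C, eval_zero,
      sub_self, one_pow, one_mul] at h0
    by_contra hcon
    push Not at hcon
    rcases hb with ha | ha | ha
    · have g2 : b2 ≠ 0 := hcon.1 ha
      have g3 : b3 ≠ 0 := hcon.2.1 ha
      rw [ha, zero_pow g2, zero_pow g3] at h0
      simp at h0
      exact h1 h0
    · have g1 : b1 ≠ 0 := fun h => hcon.1 h ha
      have g3 : b3 ≠ 0 := hcon.2.2 ha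
      rw [ha, zero_pow g1, zero_pow g3] at h0
      simp at h0
      exact h2 h0
    · have g1 : b1 ≠ 0 := fun h => hcon.2.1 h ha
      have g2 : b2 ≠ 0 := fun h => hcon.2.2 h ha
      rw [ha, zero_pow g1, zero_pow g2] at h0
      simp at h0
      exact h3 h0
  rcases e0 with ⟨rfl, rfl⟩ | ⟨rfl, rfl⟩ | ⟨rfl, rfl⟩ <;>
    rcases e1 with ⟨rfl, rfl⟩ | ⟨rfl, rfl⟩ | ⟨rfl, rfl⟩
  · -- a3, b3
    have := one_term (d := d3) (f := d1 + d2) h3 (a := a3) (b := b3) (by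
      rw [map_add]; linear_combination h)
    obtain ⟨rfl, rfl⟩ := this
    simp
  · -- a3, b2
    have := two_term (d := d3) (e := d2) (f := d1) h3 h2 (a := a3) (b := b2) (by
      linear_combination h)
    rcases this with ⟨rfl, rfl⟩ | ⟨rfl, rfl⟩ <;> simp
  · -- a3, b1
    have := two_term (d := d3) (e := d1) (f := d2) h3 h1 (a := a3) (b := b1) (by
      linear_combination h)
    rcases this with ⟨rfl, rfl⟩ | ⟨rfl, rfl⟩ <;> simp
  · -- a2, b3
    have := two_term (d := d2) (e := d3) (f := d1) h2 h3 (a := a2) (b := b3) (by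
      linear_combination h)
    rcases this with ⟨rfl, rfl⟩ | ⟨rfl, rfl⟩ <;> simp
  · -- a2, b2
    have := one_term (d := d2) (f := d1 + d3) h2 (a := a2) (b := b2) (by
      rw [map_add]; linear_combination h)
    obtain ⟨rfl, rfl⟩ := this
    simp
  · -- a2, b1
    have := two_term (d := d2) (e := d1) (f := d3) h2 h1 (a := a2) (b := b1) (by
      linear_combination h)
    rcases this with ⟨rfl, rfl⟩ | ⟨rfl, rfl⟩ <;> simp
  · -- a1, b3
    have := two_term (d := d1) (e := d3) (f := d2) h1 h3 (a := a1) (b := b3) (by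
      linear_combination h)
    rcases this with ⟨rfl, rfl⟩ | ⟨rfl, rfl⟩ <;> simp
  · -- a1, b2
    have := two_term (d := d1) (e := d2) (f := d3) h1 h2 (a := a1) (b := b2) (by
      linear_combination h)
    rcases this with ⟨rfl, rfl⟩ | ⟨rfl, rfl⟩ <;> simp
  · -- a1, b1
    have := one_term (d := d1) (f := d2 + d3) h1 (a := a1) (b := b1) (by
      rw [map_add]; linear_combination h)
    obtain ⟨rfl, rfl⟩ := this
    simp

theorem exists_shift (i i' : ℤ) : ∃ (I : ℤ) (a1 a2 a3 : ℕ), i = I + a1 ∧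
    i' = I + a2 ∧ 0 = I + a3 ∧ (a1 = 0 ∨ a2 = 0 ∨ a3 = 0) := by
  refine ⟨min i (min i' 0), (i - min i (min i' 0)).toNat, (i' - min i (min i' 0)).toNat,
    (0 - min i (min i' 0)).toNat, ?_, ?_, ?_, ?_⟩ <;> omega

/-- **The six solutions.** -/
theorem six_cases [CharZero k] [IsAlgClosed k] {A : C} (hA : ¬ Cst k A) {c1 c2 : C}
    (hc1 : Cst k c1) (hc2 : Cst k c2) {i j i' j' : ℤ}
    (h : c1 * (A ^ i * (1 - A) ^ j) + c2 * (A ^ i' * (1 - A) ^ j') = 1)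
    (n1 : ¬ Cst k (c1 * (A ^ i * (1 - A) ^ j)))
    (n2 : ¬ Cst k (c2 * (A ^ i' * (1 - A) ^ j')))
    (n3 : ¬ Cst k (c1 * (A ^ i * (1 - A) ^ j) / (c2 * (A ^ i' * (1 - A) ^ j')))) :
    (i = 1 ∧ j = 0 ∧ i' = 0 ∧ j' = 1) ∨ (i = 0 ∧ j = 1 ∧ i' = 1 ∧ j' = 0) ∨
    (i = -1 ∧ j = 0 ∧ i' = -1 ∧ j' = 1) ∨ (i = 0 ∧ j = -1 ∧ i' = 1 ∧ j' = -1) ∨
    (i = 1 ∧ j = -1 ∧ i' = 0 ∧ j' = -1) ∨ (i = -1 ∧ j = 1 ∧ i' = -1 ∧ j' = 0) := by
  have hA0 : A ≠ 0 := fun h => hA (h ▸ cst_zero)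
  have hA1 : 1 - A ≠ 0 := fun h => hA (by rw [← sub_eq_zero.mp h]; exact cst_one)
  obtain ⟨c1, rfl⟩ := hc1
  obtain ⟨c2, rfl⟩ := hc2
  have g1 : c1 ≠ 0 := by
    rintro rfl
    apply n1
    rw [map_zero, zero_mul]
    exact cst_zero
  have g2 : c2 ≠ 0 := by
    rintro rfl
    apply n2
    rw [map_zero, zero_mul]
    exact cst_zero
  obtain ⟨I, a1, a2, a3, hi1, hi2, hi3, hia⟩ : ∃ (I : ℤ) (a1 a2 a3 : ℕ), i = I + a1 ∧
      i' = I + a2 ∧ 0 = I + a3 ∧ (a1 = 0 ∨ a2 = 0 ∨ a3 = 0) := exists_shift i i'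
  obtain ⟨J, b1, b2, b3, hj1, hj2, hj3, hjb⟩ : ∃ (J : ℤ) (b1 b2 b3 : ℕ), j = J + b1 ∧
      j' = J + b2 ∧ 0 = J + b3 ∧ (b1 = 0 ∨ b2 = 0 ∨ b3 = 0) := exists_shift j j'
  have key : Polynomial.C c1 * (X ^ a1 * (1 - X) ^ b1) +
      Polynomial.C c2 * (X ^ a2 * (1 - X) ^ b2) +
      Polynomial.C (-1) * (X ^ a3 * (1 - X) ^ b3) = 0 := by
    apply poly_eq hA
    simp only [map_add, map_mul, map_pow, map_sub, map_one, aeval_X, aeval_C, map_neg, map_zero]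
    have e1 : A ^ i = A ^ I * A ^ a1 := by rw [hi1, zpow_add₀ hA0, zpow_natCast]
    have e2 : A ^ i' = A ^ I * A ^ a2 := by rw [hi2, zpow_add₀ hA0, zpow_natCast]
    have e3 : 1 = A ^ I * A ^ a3 := by rw [← zpow_natCast, ← zpow_add₀ hA0, ← hi3, zpow_zero]
    have f1 : (1 - A) ^ j = (1 - A) ^ J * (1 - A) ^ b1 := by rw [hj1, zpow_add₀ hA1, zpow_natCast]
    have f2 : (1 - A) ^ j' = (1 - A) ^ J * (1 - A) ^ b2 := by rw [hj2, zpow_add₀ hA1, zpow_natCast]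
    have f3 : 1 = (1 - A) ^ J * (1 - A) ^ b3 := by
      rw [← zpow_natCast, ← zpow_add₀ hA1, ← hj3, zpow_zero]
    rw [e1, e2, f1, f2] at h
    have hI : A ^ I ≠ 0 := zpow_ne_zero _ hA0
    have hJ : (1 - A) ^ J ≠ 0 := zpow_ne_zero _ hA1
    apply mul_left_cancel₀ (mul_ne_zero hI hJ)
    rw [mul_zero]
    have g : A ^ I * (1 - A) ^ J * (A ^ a3 * (1 - A) ^ b3) = 1 := by
      calc A ^ I * (1 - A) ^ J * (A ^ a3 * (1 - A) ^ b3)
          = (A ^ I * A ^ a3) * ((1 - A) ^ J * (1 - A) ^ b3) := by ring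
        _ = 1 := by rw [← e3, ← f3, mul_one]
    calc A ^ I * (1 - A) ^ J * ((algebraMap k C) c1 * (A ^ a1 * (1 - A) ^ b1) +
          (algebraMap k C) c2 * (A ^ a2 * (1 - A) ^ b2) + -1 * (A ^ a3 * (1 - A) ^ b3))
        = ((algebraMap k C) c1 * (A ^ I * A ^ a1 * ((1 - A) ^ J * (1 - A) ^ b1)) +
          (algebraMap k C) c2 * (A ^ I * A ^ a2 * ((1 - A) ^ J * (1 - A) ^ b2))) -
          A ^ I * (1 - A) ^ J * (A ^ a3 * (1 - A) ^ b3) := by ring
      _ = 0 := by rw [h, g, sub_self]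
  have := three_term g1 g2 (show (-1 : k) ≠ 0 by norm_num) key hia hjb
  rcases this with ⟨rfl, rfl, rfl, rfl, rfl, rfl⟩ | ⟨rfl, rfl, rfl, rfl, rfl, rfl⟩ |
    ⟨rfl, rfl, rfl, rfl, rfl, rfl⟩ | ⟨rfl, rfl, rfl, rfl, rfl, rfl⟩ |
    ⟨rfl, rfl, rfl, rfl, rfl, rfl⟩ | ⟨rfl, rfl, rfl, rfl, rfl, rfl⟩ |
    ⟨rfl, rfl, rfl, rfl, rfl, rfl⟩
  · exfalso
    apply n1
    have e1 : i = 0 := by push_cast at hi1 hi3; linarith
    have e2 : j = 0 := by push_cast at hj1 hj3; linarith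
    rw [e1, e2, zpow_zero, zpow_zero, mul_one, mul_one]
    exact cst_map _
  all_goals
    push_cast at hi1 hi2 hi3 hj1 hj2 hj3
    have e1 : I = _ := (eq_sub_of_add_eq hi3.symm)
    have e2 : J = _ := (eq_sub_of_add_eq hj3.symm)
    subst e1 e2
    norm_num at hi1 hi2 hj1 hj2
    subst hi1 hi2 hj1 hj2
    norm_num

end Pool.Agent.W2helper70.TT
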