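import Pool.Agent.H340R2.LW2
import Pool.Agent.W2helper70.TT.SUnit

/-!
# Algebraic closure and the theorem of Lindemann and Weierstrass
-/

set_option autoImplicit false

namespace Pool.Agent.W2helper70.TT

open Complex

/-- the field of algebraic numbers -/
noncomputable abbrev QB : IntermediateField ℚ ℂ := algebraicClosure ℚ ℂ

instance : IsAlgClosed QB := (algebraicClosure.isAlgClosure ℚ ℂ).isAlgClosed

theorem cst_iff {z : ℂ} : Cst QB z ↔ IsAlgebraic ℚ z := by
  constructor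
  · rintro ⟨a, rfl⟩
    exact (mem_algebraicClosure_iff).mp a.2
  · intro h
    exact ⟨⟨z, (mem_algebraicClosure_iff).mpr h⟩, rfl⟩

/-- the algebraic closure of the field generated by `s` -/
def cl (s : Set ℂ) : Set ℂ := (AlgebraicIndependent.matroid ℚ ℂ).closure s

theorem mem_cl {s : Set ℂ} {z : ℂ} : z ∈ cl s ↔ IsAlgebraic (Algebra.adjoin ℚ s) z := by
  unfold cl
  rw [AlgebraicIndependent.matroid_closure_eq]
  exact Iff.rfl

theorem cl_of_alg {s : Set ℂ} {z : ℂ} (hz : IsAlgebraic ℚ z) : z ∈ cl s :=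
  mem_cl.mpr (hz.extendScalars (FaithfulSMul.algebraMap_injective ℚ _))

theorem cl_mul {s : Set ℂ} {z w : ℂ} (hz : z ∈ cl s) (hw : w ∈ cl s) : z * w ∈ cl s :=
  mem_cl.mpr ((mem_cl.mp hz).mul (mem_cl.mp hw))

theorem cl_inv {s : Set ℂ} {z : ℂ} (hz : z ∈ cl s) : z⁻¹ ∈ cl s :=
  mem_cl.mpr ((mem_cl.mp hz).inv)

theorem cl_pow {s : Set ℂ} {z : ℂ} (hz : z ∈ cl s) (n : ℕ) : z ^ n ∈ cl s :=
  mem_cl.mpr ((mem_cl.mp hz).pow n)

theorem cl_zpow {s : Set ℂ} {z : ℂ} (hz : z ∈ cl s) (n : ℤ) : z ^ n ∈ cl s := by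
  rcases n with n | n
  · rw [Int.ofNat_eq_natCast, zpow_natCast]; exact cl_pow hz n
  · rw [zpow_negSucc]; exact cl_inv (cl_pow hz _)

theorem cl_of_pow {s : Set ℂ} {z : ℂ} {n : ℕ} (hn : n ≠ 0) (hz : z ^ n ∈ cl s) : z ∈ cl s :=
  mem_cl.mpr ((mem_cl.mp hz).of_pow (Nat.pos_of_ne_zero hn))

theorem cl_self {s : Set ℂ} {z : ℂ} (hz : z ∈ s) : z ∈ cl s :=
  (AlgebraicIndependent.matroid ℚ ℂ).mem_closure_of_mem hz

theorem cl_sub {s t : Set ℂ} (h : s ⊆ cl t) : cl s ⊆ cl t :=
  (AlgebraicIndependent.matroid ℚ ℂ).closure_subset_closure_of_subset_closure h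

theorem cl_sub1 {a : ℂ} {t : Set ℂ} (h : a ∈ cl t) : cl {a} ⊆ cl t :=
  cl_sub (Set.singleton_subset_iff.mpr h)

theorem alg_of_cl_empty {z : ℂ} (hz : z ∈ cl ∅) : IsAlgebraic ℚ z := by
  have h := mem_cl.mp hz
  rw [Algebra.adjoin_empty] at h
  have : Algebra.IsAlgebraic ℚ (⊥ : Subalgebra ℚ ℂ) := by
    constructor
    rintro ⟨x, hx⟩
    obtain ⟨q, rfl⟩ := Algebra.mem_bot.mp hx
    exact isAlgebraic_algebraMap (R := ℚ) (A := (⊥ : Subalgebra ℚ ℂ)) q
  exact h.restrictScalars ℚ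

/-- exchange -/
theorem cl_exchange {a z : ℂ} (hz : z ∈ cl {a}) (hz0 : ¬ IsAlgebraic ℚ z) : a ∈ cl {z} := by
  have h := (AlgebraicIndependent.matroid ℚ ℂ).closure_exchange (X := ∅) (e := z) (f := a)
    ⟨by simpa [cl] using hz, fun h => hz0 (alg_of_cl_empty h)⟩
  have := h.1
  simpa [cl] using this

/-- **Lindemann–Weierstrass**, algebraic independence -/
theorem lw_indep {n : ℕ} (β : Fin n → QB) (h : LinearIndependent ℚ β) :
    AlgebraicIndependent ℚ (fun i => exp (β i : ℂ)) := by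
  classical
  rw [algebraicIndependent_iff]
  intro P hP
  rw [MvPolynomial.aeval_def, MvPolynomial.eval₂_eq'] at hP
  have hlw := Pool.Agent.H340R2.LW.lindemann_weierstrass P.support
    (fun m => ∑ i, (m i : ℂ) * (β i : ℂ)) (fun m => (algebraMap ℚ ℂ) (P.coeff m))
    (fun m _ => by
      have : (∑ i, (m i : ℂ) * (β i : ℂ)) = ((∑ i, (m i : QB) * β i : QB) : ℂ) := by
        push_cast; rfl
      rw [this]
      exact mem_algebraicClosure_iff.mp (∑ i, (m i : QB) * β i : QB).2)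
    (fun m _ => isAlgebraic_algebraMap _)
    (by
      intro m _ m' _ hmm
      have h1 : ∑ i, ((m i : ℚ) - m' i) • β i = 0 := by
        apply Subtype.val_injective
        have h2 : ((∑ i, ((m i : ℚ) - m' i) • β i : QB) : ℂ) =
            (∑ i, (m i : ℂ) * (β i : ℂ)) - ∑ i, (m' i : ℂ) * (β i : ℂ) := by
          rw [← Finset.sum_sub_distrib]
          push_cast
          refine Finset.sum_congr rfl fun i _ => ?_
          rw [Rat.smul_def]
          push_cast
          ring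
        rw [h2]
        show _ = (0 : ℂ)
        exact sub_eq_zero.mpr hmm
      have h3 := Fintype.linearIndependent_iff.mp h _ h1
      ext i
      have := h3 i
      have h4 : (m i : ℚ) = m' i := by linarith
      exact_mod_cast h4)
    (by
      rw [← hP]
      refine Finset.sum_congr rfl fun m _ => ?_
      rw [Complex.exp_sum]
      congr 1
      refine Finset.prod_congr rfl fun i _ => ?_
      rw [← Complex.exp_nat_mul])
  ext m
  by_cases hm : m ∈ P.support
  · have := hlw m hm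
    simpa using this
  · simpa using hm

theorem lw2 {β g : QB} (h : LinearIndependent ℚ ![g, β]) : exp (g : ℂ) ∉ cl {exp (β : ℂ)} := by
  have h1 := (lw_indep _ h).transcendental_adjoin (s := {1}) (i := 0) (by simp)
  rw [Set.image_singleton] at h1
  intro hcl
  exact h1 (mem_cl.mp hcl)

theorem lw3 {β γ g : QB} (h : LinearIndependent ℚ ![g, β, γ]) :
    exp (g : ℂ) ∉ cl {exp (β : ℂ), exp (γ : ℂ)} := by
  have h1 := (lw_indep _ h).transcendental_adjoin (s := {1, 2}) (i := 0) (by simp)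
  rw [Set.image_pair] at h1
  intro hcl
  exact h1 (mem_cl.mp hcl)

end Pool.Agent.W2helper70.TT
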