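import Pool.Agent.W2helper70.TT.LI
import Pool.Agent.W2helper70.TT.Fermat

/-!
# The algebraically closed field `Om s`, and freeness of the complement of a simplex relation
-/

set_option autoImplicit false

namespace Pool.Agent.W2helper70.TT

open Complex

/-- the algebraic closure in `ℂ` of the field generated by `s` -/
noncomputable abbrev Om (s : Set ℂ) : IntermediateField (IntermediateField.adjoin ℚ s) ℂ :=
  algebraicClosure (IntermediateField.adjoin ℚ s) ℂ

instance (s : Set ℂ) : IsAlgClosed (Om s) :=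
  (algebraicClosure.isAlgClosure (IntermediateField.adjoin ℚ s) ℂ).isAlgClosed

open scoped IntermediateField.algebraAdjoinAdjoin in
theorem mem_Om {s : Set ℂ} {z : ℂ} : z ∈ Om s ↔ z ∈ cl s := by
  rw [mem_cl, mem_algebraicClosure_iff]
  exact (IsFractionRing.isAlgebraic_iff (Algebra.adjoin ℚ s) (IntermediateField.adjoin ℚ s) ℂ).symm

/-- the complement of `p 0` -/
theorem free_ker {l : ℂ} {m : ℕ} {p : Fin (m + 2) → ℚ × QB} {a : Fin (m + 2) → QB}
    (ha : ∀ i, a i ≠ 0) (h : ∑ i, (a i : ℂ) * E l (p i) = 1)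
    (φ : (ℚ × QB) →ₗ[ℚ] ℚ) (h0 : φ (p 0) = 1) (hφ : ∀ i : Fin (m + 1), φ (p i.succ) = 0) :
    FreeOn l (LinearMap.ker φ) := by
  intro B hfin hB hli
  set t : Set (ℚ × QB) := B ∪ Set.range (fun i : Fin (m + 1) => p i.succ) with ht
  have htfin : t.Finite := hfin.union (Set.finite_range _)
  have htk : t ⊆ LinearMap.ker φ := by
    rintro v (hv | ⟨i, rfl⟩)
    · exact hB hv
    · exact hφ i
  obtain ⟨b, hbt, hBb, htb, hbli⟩ := exists_linearIndepOn_id_extension (K := ℚ)
    (s := B) (t := t) hli Set.subset_union_left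
  have hspan : Submodule.span ℚ b ≤ LinearMap.ker φ := Submodule.span_le.mpr (hbt.trans htk)
  have hp0 : p 0 ∉ Submodule.span ℚ b := by
    intro hcon
    have h1 : φ (p 0) = 0 := hspan hcon
    rw [h0] at h1
    exact one_ne_zero h1
  have hrel : E l (p 0) ∈ cl (E l '' b) := by
    have hmem : ∀ i : Fin (m + 1), E l (p i.succ) ∈ cl (E l '' b) := by
      intro i
      exact E_span (l := l) (s := E l '' b) (B := b)
        (fun v hv => cl_self (Set.mem_image_of_mem _ hv)) (htb (Or.inr ⟨i, rfl⟩))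
    rw [Fin.sum_univ_succ] at h
    have ha0 : (a 0 : ℂ) ≠ 0 := by
      intro hcon
      apply ha 0
      exact Subtype.ext hcon
    have h1 : E l (p 0) = (1 - ∑ i : Fin (m + 1), (a i.succ : ℂ) * E l (p i.succ)) / (a 0 : ℂ) := by
      rw [← h]; field_simp; ring
    rw [h1]
    have hcst : ∀ z : QB, (z : ℂ) ∈ cl (E l '' b) := fun z =>
      cl_of_alg (mem_algebraicClosure_iff.mp z.2)
    refine cl_div (cl_minus cl_one ?_) (hcst _)
    have hsum : ∀ s : Finset (Fin (m + 1)),
        ∑ i ∈ s, (a i.succ : ℂ) * E l (p i.succ) ∈ cl (E l '' b) := by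
      classical
      intro s
      induction s using Finset.induction_on with
      | empty => simpa using hcst 0
      | insert i s hi ih =>
        rw [Finset.sum_insert hi]
        exact cl_add (cl_mul (hcst _) (hmem i)) ih
    exact hsum _
  obtain ⟨h1, h2⟩ := indep_of_rel (htfin.subset hbt) hbli hp0 hrel
  exact ⟨h1.subset (Set.image_mono hBb), h2.mono hBb⟩

/-- `E q` is transcendental over `Om (E B)` if `q` is outside of the span of `B` -/
theorem FreeOn.notMem {l : ℂ} {H : Submodule ℚ (ℚ × QB)} (hH : FreeOn l H) {B : Set (ℚ × QB)}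
    (hfin : B.Finite) (hB : B ⊆ H) (hli : LinearIndependent ℚ (fun v : B => (v : ℚ × QB)))
    {q : ℚ × QB} (hq : q ∈ H) (hqB : q ∉ Submodule.span ℚ B) : E l q ∉ cl (E l '' B) := by
  have hqB' : q ∉ B := fun h => hqB (Submodule.subset_span h)
  have hli' : LinearIndepOn ℚ id (insert q B) :=
    (linearIndepOn_id_insert hqB').mpr ⟨hli, hqB⟩
  obtain ⟨h1, h2⟩ := hH (insert q B) (hfin.insert q) (Set.insert_subset hq hB) hli'
  have hnot : E l q ∉ E l '' B := by
    rintro ⟨v, hv, hvq⟩
    have := h2 (Set.mem_insert_of_mem q hv) (Set.mem_insert q B) hvq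
    exact hqB' (this ▸ hv)
  rw [Set.image_insert_eq] at h1
  have h3 := (Matroid.Indep.notMem_closure_sdiff_of_mem h1 (Set.mem_insert _ _))
  rw [Set.insert_sdiff_self_of_notMem hnot] at h3
  exact h3

end Pool.Agent.W2helper70.TT
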