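import Pool.Agent.W2helper70.TT.LW

/-!
# Three-term relations among the numbers `exp (r l + β)`: the plane of a relation
-/

set_option autoImplicit false

namespace Pool.Agent.W2helper70.TT

open Complex

/-- the number `exp (r l + β)` -/
noncomputable def E (l : ℂ) (v : ℚ × QB) : ℂ := exp ((v.1 : ℂ) * l + (v.2 : ℂ))

theorem E_ne (l : ℂ) (v : ℚ × QB) : E l v ≠ 0 := exp_ne_zero _

theorem E_zero (l : ℂ) : E l 0 = 1 := by
  simp [E]

theorem E_add (l : ℂ) (u v : ℚ × QB) : E l (u + v) = E l u * E l v := by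
  unfold E
  rw [← exp_add]
  congr 1
  simp only [Prod.fst_add, Prod.snd_add]
  push_cast
  ring

theorem E_neg (l : ℂ) (v : ℚ × QB) : E l (-v) = (E l v)⁻¹ := by
  have h := E_add l v (-v)
  rw [add_neg_cancel, E_zero] at h
  exact eq_inv_of_mul_eq_one_right h.symm

theorem E_sub (l : ℂ) (u v : ℚ × QB) : E l (u - v) = E l u / E l v := by
  rw [sub_eq_add_neg, E_add, E_neg, div_eq_mul_inv]

theorem E_nsmul (l : ℂ) (n : ℕ) (v : ℚ × QB) : E l (n • v) = E l v ^ n := by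
  induction n with
  | zero => simp [E_zero]
  | succ n ih => rw [succ_nsmul, E_add, ih, pow_succ]

theorem E_zsmul (l : ℂ) (n : ℤ) (v : ℚ × QB) : E l (n • v) = E l v ^ n := by
  rcases n with n | n
  · rw [Int.ofNat_eq_natCast, natCast_zsmul, zpow_natCast, E_nsmul]
  · rw [negSucc_zsmul, E_neg, E_nsmul, zpow_negSucc]

/-- `A = a E p` and `1 - A = b E q` with constants `a, b` and `A` not constant -/
def Rel (l : ℂ) (p q : ℚ × QB) (A : ℂ) : Prop :=
  ¬ Cst QB A ∧ (∃ a : ℂ, Cst QB a ∧ a ≠ 0 ∧ A = a * E l p) ∧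
    (∃ b : ℂ, Cst QB b ∧ b ≠ 0 ∧ 1 - A = b * E l q)

theorem clear_denoms (x y : ℚ) (p q : ℚ × QB) : ∃ (N : ℕ) (X Y : ℤ), N ≠ 0 ∧
    (X : ℚ) = N * x ∧ (Y : ℚ) = N * y ∧ N • (x • p + y • q) = X • p + Y • q := by
  refine ⟨x.den * y.den, x.num * y.den, y.num * x.den, ?_, ?_, ?_, ?_⟩
  · exact mul_ne_zero x.den_ne_zero y.den_ne_zero
  · push_cast
    have := Rat.mul_den_eq_num x
    rw [← this]; ring
  · push_cast
    have := Rat.mul_den_eq_num y
    rw [← this]; ring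
  · have h1 : ((x.num * y.den : ℤ) : ℚ) = (x.den * y.den : ℕ) * x := by
      push_cast
      have := Rat.mul_den_eq_num x
      rw [← this]; ring
    have h2 : ((y.num * x.den : ℤ) : ℚ) = (x.den * y.den : ℕ) * y := by
      push_cast
      have := Rat.mul_den_eq_num y
      rw [← this]; ring
    rw [← Int.cast_smul_eq_zsmul ℚ (x.num * y.den : ℤ) p,
      ← Int.cast_smul_eq_zsmul ℚ (y.num * x.den : ℤ) q, h1, h2,
      ← Nat.cast_smul_eq_nsmul ℚ (x.den * y.den : ℕ), smul_add, smul_smul, smul_smul]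

theorem E_comb (l : ℂ) (X Y : ℤ) (p q : ℚ × QB) :
    E l (X • p + Y • q) = E l p ^ X * E l q ^ Y := by
  rw [E_add, E_zsmul, E_zsmul]

section
variable {l : ℂ} {p q : ℚ × QB} {A : ℂ}

theorem Rel.indep (h : Rel l p q A) {x y : ℚ} (hc : Cst QB (E l (x • p + y • q))) :
    x = 0 ∧ y = 0 := by
  obtain ⟨hA, ⟨a, ha, ha0, hAa⟩, b, hb, hb0, hAb⟩ := h
  obtain ⟨N, X, Y, hN, hX, hY, hNXY⟩ := clear_denoms x y p q
  have h1 := E_nsmul l N (x • p + y • q)
  rw [hNXY, E_comb] at h1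
  have h2 : Cst QB (A ^ X * (1 - A) ^ Y) := by
    rw [hAb]
    nth_rewrite 1 [hAa]
    rw [mul_zpow, mul_zpow]
    have h3 : a ^ X * E l p ^ X * (b ^ Y * E l q ^ Y) =
        a ^ X * b ^ Y * (E l (x • p + y • q)) ^ N := by
      rw [← h1]; ring
    rw [h3]
    exact ((ha.zpow X).mul (hb.zpow Y)).mul (hc.pow N)
  obtain ⟨hX0, hY0⟩ := mult_indep hA h2
  have hNq : (N : ℚ) ≠ 0 := by exact_mod_cast hN
  constructor
  · rw [hX0] at hX
    have : (N : ℚ) * x = 0 := by rw [← hX]; simp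
    exact (mul_eq_zero.mp this).resolve_left hNq
  · rw [hY0] at hY
    have : (N : ℚ) * y = 0 := by rw [← hY]; simp
    exact (mul_eq_zero.mp this).resolve_left hNq

theorem cl_of_cst {s : Set ℂ} {z : ℂ} (hz : Cst QB z) : z ∈ cl s :=
  cl_of_alg (cst_iff.mp hz)

theorem cl_div {s : Set ℂ} {z w : ℂ} (hz : z ∈ cl s) (hw : w ∈ cl s) : z / w ∈ cl s := by
  rw [div_eq_mul_inv]; exact cl_mul hz (cl_inv hw)

theorem cl_add {s : Set ℂ} {z w : ℂ} (hz : z ∈ cl s) (hw : w ∈ cl s) : z + w ∈ cl s :=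
  mem_cl.mpr ((mem_cl.mp hz).add (mem_cl.mp hw))

theorem cl_minus {s : Set ℂ} {z w : ℂ} (hz : z ∈ cl s) (hw : w ∈ cl s) : z - w ∈ cl s :=
  mem_cl.mpr ((mem_cl.mp hz).sub (mem_cl.mp hw))

theorem Rel.E_p (h : Rel l p q A) : E l p ∈ cl {A} := by
  obtain ⟨hA, ⟨a, ha, ha0, hAa⟩, b, hb, hb0, hAb⟩ := h
  have : E l p = A / a := by rw [hAa]; field_simp
  rw [this]
  exact cl_div (cl_self rfl) (cl_of_cst ha)

theorem Rel.E_q (h : Rel l p q A) : E l q ∈ cl {A} := by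
  obtain ⟨hA, ⟨a, ha, ha0, hAa⟩, b, hb, hb0, hAb⟩ := h
  have : E l q = (1 - A) / b := by rw [hAb]; field_simp
  rw [this]
  exact cl_div (cl_minus (cl_of_cst cst_one) (cl_self rfl)) (cl_of_cst hb)

theorem Rel.E_comb (h : Rel l p q A) (x y : ℚ) : E l (x • p + y • q) ∈ cl {A} := by
  obtain ⟨N, X, Y, hN, hX, hY, hNXY⟩ := clear_denoms x y p q
  apply cl_of_pow hN
  rw [← E_nsmul, hNXY, TT.E_comb]
  exact cl_mul (cl_zpow h.E_p X) (cl_zpow h.E_q Y)

theorem E_snd (l : ℂ) (β : QB) : E l (0, β) = exp (β : ℂ) := by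
  simp [E]

theorem Rel.first (h : Rel l p q A) : p.1 ≠ 0 ∨ q.1 ≠ 0 := by
  by_contra hcon
  push Not at hcon
  obtain ⟨hp, hq⟩ := hcon
  have hp' : p = (0, p.2) := Prod.ext hp rfl
  have hq' : q = (0, q.2) := Prod.ext hq rfl
  have hli : LinearIndependent ℚ ![q.2, p.2] := by
    rw [LinearIndependent.pair_iff]
    intro s t hst
    have h1 : t • p + s • q = 0 := by
      rw [hp', hq']
      ext
      · simp
      · simp only [Prod.smul_mk, Prod.mk_add_mk, smul_zero, add_zero, Prod.snd_zero]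
        rw [add_comm, hst]
    have h2 := h.indep (x := t) (y := s) (by rw [h1, E_zero]; exact cst_one)
    exact ⟨h2.2, h2.1⟩
  have h3 := lw2 hli
  apply h3
  rw [← E_snd l, ← E_snd l, ← hp', ← hq']
  obtain ⟨hA, ⟨a, ha, ha0, hAa⟩, b, hb, hb0, hAb⟩ := h
  have : E l q = (1 - a * E l p) / b := by rw [← hAa, hAb]; field_simp
  rw [this]
  exact cl_div (cl_minus (cl_of_cst cst_one) (cl_mul (cl_of_cst ha) (cl_self rfl)))
    (cl_of_cst hb)

/-- the plane of a relation -/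
theorem Rel.pack (h : Rel l p q A) : ∃ (w : ℚ × QB) (β : QB), w.1 = 1 ∧ β ≠ 0 ∧
    (∃ x y : ℚ, w = x • p + y • q) ∧ (∃ x y : ℚ, ((0, β) : ℚ × QB) = x • p + y • q) ∧
    (∀ x y : ℚ, E l (x • p + y • q) ∈ cl {exp (β : ℂ)}) ∧ exp (β : ℂ) ∈ cl {A} := by
  have hv : ((0, p.1 • q.2 - q.1 • p.2) : ℚ × QB) = (-q.1) • p + p.1 • q := by
    ext
    · simp only [Prod.fst_add, Prod.smul_fst, smul_eq_mul]
      ring
    · simp only [Prod.snd_add, Prod.smul_snd]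
      rw [neg_smul, add_comm, sub_eq_add_neg]
  have hβ : p.1 • q.2 - q.1 • p.2 ≠ 0 := by
    intro h0
    rw [h0] at hv
    have h1 := h.indep (x := -q.1) (y := p.1) (by
      rw [← hv]
      have : ((0, 0) : ℚ × QB) = 0 := rfl
      rw [this, E_zero]; exact cst_one)
    rcases h.first with h2 | h2
    · exact h2 h1.2
    · exact h2 (neg_eq_zero.mp h1.1)
  have hmem : exp ((p.1 • q.2 - q.1 • p.2 : QB) : ℂ) ∈ cl {A} := by
    rw [← E_snd l, hv]; exact h.E_comb _ _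
  have hnc : ¬ IsAlgebraic ℚ (exp ((p.1 • q.2 - q.1 • p.2 : QB) : ℂ)) := by
    rw [← cst_iff, ← E_snd l, hv]
    intro hc
    have h1 := h.indep hc
    rcases h.first with h2 | h2
    · exact h2 h1.2
    · exact h2 (neg_eq_zero.mp h1.1)
  have hA1 := cl_exchange hmem hnc
  have hall : ∀ x y : ℚ, E l (x • p + y • q) ∈ cl {exp ((p.1 • q.2 - q.1 • p.2 : QB) : ℂ)} :=
    fun x y => cl_sub1 hA1 (h.E_comb x y)
  rcases h.first with h2 | h2
  · refine ⟨p.1⁻¹ • p, _, ?_, hβ, ⟨p.1⁻¹, 0, by simp⟩, ⟨_, _, hv⟩, hall, hmem⟩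
    simp [h2]
  · refine ⟨q.1⁻¹ • q, _, ?_, hβ, ⟨0, q.1⁻¹, by simp⟩, ⟨_, _, hv⟩, hall, hmem⟩
    simp [h2]

end

end Pool.Agent.W2helper70.TT
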