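import Pool.Agent.W2helper70.TT.Vanish

/-!
# The ideal of all relations is generated by a simplex relation
-/

set_option autoImplicit false

namespace Pool.Agent.W2helper70.TT

open Complex AddMonoidAlgebra

/-- the group algebra -/
abbrev GA := AddMonoidAlgebra QB (ℚ × QB)

/-- the character `v ↦ E v` -/
noncomputable def Eh (l : ℂ) : Multiplicative (ℚ × QB) →* ℂ where
  toFun v := E l v.toAdd
  map_one' := E_zero l
  map_mul' _ _ := E_add l _ _

/-- evaluation -/
noncomputable def ev (l : ℂ) : GA →ₐ[QB] ℂ := AddMonoidAlgebra.lift QB ℂ (ℚ × QB) (Eh l)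

theorem ev_single (l : ℂ) (v : ℚ × QB) (c : QB) : ev l (single v c) = (c : ℂ) * E l v := by
  rw [ev, AddMonoidAlgebra.lift_single]
  rfl

theorem ev_apply (l : ℂ) (g : GA) : ev l g = g.coeff.sum (fun v c => (c : ℂ) * E l v) := by
  rw [ev, AddMonoidAlgebra.lift_apply]
  rfl

/-- the support is in the strip `0 ≤ φ < 1` -/
def Rd (φ : (ℚ × QB) →ₗ[ℚ] ℚ) (g : GA) : Prop := ∀ v, g.coeff v ≠ 0 → 0 ≤ φ v ∧ φ v < 1

/-- congruent to an element of the strip -/
def Cg (φ : (ℚ × QB) →ₗ[ℚ] ℚ) (f g : GA) : Prop := ∃ g' : GA, Rd φ g' ∧ f ∣ g - g'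

section
variable {φ : (ℚ × QB) →ₗ[ℚ] ℚ} {f : GA}

theorem Cg.zero : Cg φ f 0 := ⟨0, fun v hv => absurd rfl hv, by simp⟩

theorem Cg.add {g h : GA} (hg : Cg φ f g) (hh : Cg φ f h) : Cg φ f (g + h) := by
  obtain ⟨g', hg', hg2⟩ := hg
  obtain ⟨h', hh', hh2⟩ := hh
  refine ⟨g' + h', ?_, ?_⟩
  · intro v hv
    rw [coeff_add, Finsupp.add_apply] at hv
    by_cases h1 : g'.coeff v = 0
    · exact hh' v (by rwa [h1, zero_add] at hv)
    · exact hg' v h1
  · have : g + h - (g' + h') = (g - g') + (h - h') := by abel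
    rw [this]; exact dvd_add hg2 hh2

theorem Cg.neg {g : GA} (hg : Cg φ f g) : Cg φ f (-g) := by
  obtain ⟨g', hg', hg2⟩ := hg
  refine ⟨-g', ?_, ?_⟩
  · intro v hv
    rw [coeff_neg, Finsupp.neg_apply] at hv
    exact hg' v (fun h => hv (by rw [h, neg_zero]))
  · have : -g - -g' = -(g - g') := by abel
    rw [this]; exact (dvd_neg).mpr hg2

theorem Cg.sum {ι : Type*} (s : Finset ι) (g : ι → GA) (h : ∀ i ∈ s, Cg φ f (g i)) :
    Cg φ f (∑ i ∈ s, g i) := by
  classical
  induction s using Finset.induction_on with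
  | empty => simpa using Cg.zero
  | insert i s hi ih =>
    rw [Finset.sum_insert hi]
    exact (h i (Finset.mem_insert_self _ _)).add
      (ih fun j hj => h j (Finset.mem_insert_of_mem hj))

theorem Cg.congr {g h : GA} (hg : Cg φ f g) (hd : f ∣ h - g) : Cg φ f h := by
  obtain ⟨g', hg', hg2⟩ := hg
  refine ⟨g', hg', ?_⟩
  have : h - g' = (h - g) + (g - g') := by abel
  rw [this]; exact dvd_add hd hg2

theorem Cg.of_single {v : ℚ × QB} (c : QB) (h0 : 0 ≤ φ v) (h1 : φ v < 1) :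
    Cg φ f (single v c) := by
  refine ⟨single v c, ?_, by simp⟩
  intro w hw
  have : w = v := by
    by_contra hne
    apply hw
    rw [coeff_single, Finsupp.single_apply, if_neg (Ne.symm hne)]
  rw [this]
  exact ⟨h0, h1⟩

end

/-- the normalised relation -/
noncomputable def f0 {m : ℕ} (p : Fin (m + 2) → ℚ × QB) (a : Fin (m + 2) → QB) : GA :=
  (∑ i, single (p i) (a i)) - 1

section
variable {l : ℂ} {m : ℕ} {p : Fin (m + 2) → ℚ × QB} {a : Fin (m + 2) → QB}
  {φ : (ℚ × QB) →ₗ[ℚ] ℚ}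

theorem red1 (ha0 : a 0 ≠ 0) (h0 : φ (p 0) = 1) (hφ : ∀ i : Fin (m + 1), φ (p i.succ) = 0)
    (n : ℕ) : ∀ (v : ℚ × QB) (c : QB), 0 ≤ φ v → φ v < n + 1 → Cg φ (f0 p a) (single v c) := by
  induction n with
  | zero =>
    intro v c h1 h2
    exact Cg.of_single c h1 (by simpa using h2)
  | succ n ih =>
    intro v c h1 h2
    by_cases h3 : φ v < n + 1
    · exact ih v c h1 h3
    push Not at h3
    push_cast at h2
    set u := v - p 0 with hu
    have hφu : φ u = φ v - 1 := by rw [hu, map_sub, h0]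
    have hn : (0 : ℚ) ≤ n := Nat.cast_nonneg n
    have hu0 : 0 ≤ φ u := by rw [hφu]; linarith
    have hu1 : φ u < n + 1 := by rw [hφu]; linarith
    have hT : Cg φ (f0 p a) (single u (c / a 0) +
        -∑ i : Fin (m + 1), single (u + p i.succ) (c / a 0 * a i.succ)) := by
      refine (ih u _ hu0 hu1).add (Cg.neg (Cg.sum _ _ fun i _ => ?_))
      have h4 : φ (u + p i.succ) = φ u := by rw [map_add, hφ, add_zero]
      exact ih _ _ (by rw [h4]; exact hu0) (by rw [h4]; exact hu1)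
    refine hT.congr ⟨single u (c / a 0), ?_⟩
    have h5 : (single v c : GA) = single u (c / a 0) * single (p 0) (a 0) := by
      rw [single_mul_single, hu, sub_add_cancel]
      congr 1
      field_simp
    have h6 : ∑ i : Fin (m + 1), (single (u + p i.succ) (c / a 0 * a i.succ) : GA) =
        single u (c / a 0) * ∑ i : Fin (m + 1), single (p i.succ) (a i.succ) := by
      rw [Finset.mul_sum]
      refine Finset.sum_congr rfl fun i _ => ?_
      rw [single_mul_single]
    have h7 : (f0 p a : GA) = single (p 0) (a 0) +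
        ∑ i : Fin (m + 1), single (p i.succ) (a i.succ) - 1 := by rw [f0, Fin.sum_univ_succ]
    rw [h5, h6, h7]
    ring

theorem red (ha0 : a 0 ≠ 0) (h0 : φ (p 0) = 1) (hφ : ∀ i : Fin (m + 1), φ (p i.succ) = 0)
    (g : GA) (hg : ∀ v, g.coeff v ≠ 0 → 0 ≤ φ v) : Cg φ (f0 p a) g := by
  have h1 : g = ∑ v ∈ g.coeff.support, single v (g.coeff v) := by
    conv_lhs => rw [← sum_coeff_single g]
    rfl
  rw [h1]
  refine Cg.sum _ _ fun v hv => ?_
  obtain ⟨n, hn⟩ := exists_nat_gt (φ v)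
  exact red1 ha0 h0 hφ n v _ (hg v (Finsupp.mem_support_iff.mp hv)) (by linarith)

theorem single_unit (v : ℚ × QB) : (single (-v) 1 : GA) * single v 1 = 1 := by
  rw [single_mul_single, neg_add_cancel, mul_one]
  rfl

theorem ev_f0 (h : ∑ i, (a i : ℂ) * E l (p i) = 1) : ev l (f0 p a) = 0 := by
  rw [f0, map_sub, map_sum, map_one, sub_eq_zero, ← h]
  refine Finset.sum_congr rfl fun i _ => ?_
  rw [ev_single]

/-- **The ideal of relations.** -/
theorem principal0 {ψ : (ℚ × QB) →ₗ[ℚ] ℚ} (hp : Function.Injective p) (hp0 : ∀ i, p i ≠ 0)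
    (ha : ∀ i, a i ≠ 0) (h : ∑ i, (a i : ℂ) * E l (p i) = 1)
    (h0 : φ (p 0) = 1) (hφ : ∀ i : Fin (m + 1), φ (p i.succ) = 0)
    (hψ0 : ψ (p 0) = 0) (hψ1 : ψ (p 1) = 1) (hψ : ∀ i : Fin m, ψ (p i.succ.succ) = 0)
    {g : GA} (hg : ev l g = 0) : f0 p a ∣ g := by
  -- make `φ` nonnegative on the support
  obtain ⟨n, hn⟩ : ∃ n : ℕ, ∀ v ∈ g.coeff.support, -φ v ≤ n := by
    obtain ⟨n, hn⟩ := exists_nat_ge (∑ v ∈ g.coeff.support, |φ v|)
    refine ⟨n, fun v hv => ?_⟩
    have h1 : |φ v| ≤ ∑ v ∈ g.coeff.support, |φ v| :=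
      Finset.single_le_sum (f := fun v => |φ v|) (fun _ _ => abs_nonneg _) hv
    linarith [neg_abs_le (φ v)]
  set g1 : GA := single (n • p 0) 1 * g with hg1
  have hc1 : ∀ v, g1.coeff v = g.coeff (v - n • p 0) := by
    intro v
    rw [hg1]
    have := AddMonoidAlgebra.coeff_single_mul_eq_mul_coeff (x := g) (r := (1 : QB))
      (m := n • p 0) (m₁ := v) (v - n • p 0) (fun m' _ => by
        constructor
        · intro h2; rw [← h2]; abel
        · intro h2; rw [h2]; abel)
    rw [this, one_mul]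
  have hT : Cg φ (f0 p a) g1 := by
    refine red (ha 0) h0 hφ g1 ?_
    intro v hv
    rw [hc1] at hv
    have h2 := hn _ (Finsupp.mem_support_iff.mpr hv)
    rw [map_sub, map_nsmul, h0, nsmul_eq_mul, mul_one] at h2
    linarith
  obtain ⟨g', hR, hd⟩ := hT
  have hev1 : ev l g1 = 0 := by rw [hg1, map_mul, hg, mul_zero]
  have hev' : ev l g' = 0 := by
    obtain ⟨q, hq⟩ := hd
    have h3 := congrArg (ev l) hq
    rw [map_sub, hev1, map_mul (ev l) (f0 p a) q, ev_f0 h, zero_mul, zero_sub,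
      neg_eq_zero] at h3
    exact h3
  rw [ev_apply] at hev'
  have hv := vanish hp hp0 ha h φ ψ h0 hφ hψ0 hψ1 hψ g'.coeff.support g'.coeff
    (fun v hv => hR v (Finsupp.mem_support_iff.mp hv)) hev'
  have hg'0 : g' = 0 := by
    rw [← coeff_eq_zero]
    ext1 v
    by_cases h4 : v ∈ g'.coeff.support
    · exact hv v h4
    · exact Finsupp.notMem_support_iff.mp h4
  rw [hg'0, sub_zero] at hd
  have h5 : g = single (-(n • p 0)) 1 * g1 := by
    rw [hg1, ← mul_assoc, single_unit, one_mul]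
  rw [h5]
  exact Dvd.dvd.mul_left hd _

/-- linear forms -/
theorem exists_forms (hli : LinearIndependent ℚ p) : ∃ φ ψ : (ℚ × QB) →ₗ[ℚ] ℚ,
    φ (p 0) = 1 ∧ (∀ i : Fin (m + 1), φ (p i.succ) = 0) ∧ ψ (p 0) = 0 ∧ ψ (p 1) = 1 ∧
    ∀ i : Fin m, ψ (p i.succ.succ) = 0 := by
  have hL : LinearMap.ker (Fintype.linearCombination ℚ p) = ⊥ :=
    LinearMap.ker_eq_bot.mpr
      (linearIndependent_iff_injective_fintypeLinearCombination.mp hli)
  obtain ⟨g, hg⟩ := (Fintype.linearCombination ℚ p).exists_leftInverse_of_injective hL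
  have hgp : ∀ i, g (p i) = Pi.single i 1 := by
    intro i
    have h1 : Fintype.linearCombination ℚ p (Pi.single i 1) = p i := by
      rw [Fintype.linearCombination_apply_single, one_smul]
    have h2 := congrArg (fun F => F (Pi.single i (1 : ℚ))) hg
    simp only [LinearMap.comp_apply, LinearMap.id_apply] at h2
    rw [h1] at h2
    exact h2
  refine ⟨(LinearMap.proj 0).comp g, (LinearMap.proj 1).comp g, ?_, ?_, ?_, ?_, ?_⟩
  · simp [hgp]
  · intro i
    simp [hgp, (Fin.succ_ne_zero i).symm]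
  · simp [hgp]
  · simp [hgp]
  · intro i
    have : (1 : Fin (m + 2)) ≠ i.succ.succ := by
      intro hcon
      have := congrArg Fin.val hcon
      simp at this
    simp [hgp, this]

end

end Pool.Agent.W2helper70.TT
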