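import Mathlib

/-!
# Solutions of `X + Y = 1` in a group of rank two: algebra
-/

set_option autoImplicit false

namespace Pool.Agent.W2helper70.TT

open Polynomial

variable {k C : Type*} [Field k] [Field C] [Algebra k C]

/-- constant elements -/
def Cst (k : Type*) {C : Type*} [Field k] [Field C] [Algebra k C] (x : C) : Prop :=
  x ∈ Set.range (algebraMap k C)

theorem cst_map (c : k) : Cst k (algebraMap k C c) := ⟨c, rfl⟩
theorem cst_zero : Cst k (0 : C) := ⟨0, map_zero _⟩
theorem cst_one : Cst k (1 : C) := ⟨1, map_one _⟩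
theorem Cst.add {x y : C} (hx : Cst k x) (hy : Cst k y) : Cst k (x + y) := by
  obtain ⟨a, rfl⟩ := hx; obtain ⟨b, rfl⟩ := hy; exact ⟨a + b, map_add _ _ _⟩
theorem Cst.neg {x : C} (hx : Cst k x) : Cst k (-x) := by
  obtain ⟨a, rfl⟩ := hx; exact ⟨-a, map_neg _ _⟩
theorem Cst.sub {x y : C} (hx : Cst k x) (hy : Cst k y) : Cst k (x - y) := by
  obtain ⟨a, rfl⟩ := hx; obtain ⟨b, rfl⟩ := hy; exact ⟨a - b, map_sub _ _ _⟩
theorem Cst.mul {x y : C} (hx : Cst k x) (hy : Cst k y) : Cst k (x * y) := by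
  obtain ⟨a, rfl⟩ := hx; obtain ⟨b, rfl⟩ := hy; exact ⟨a * b, map_mul _ _ _⟩
theorem Cst.inv {x : C} (hx : Cst k x) : Cst k x⁻¹ := by
  obtain ⟨a, rfl⟩ := hx; exact ⟨a⁻¹, map_inv₀ _ _⟩
theorem Cst.div {x y : C} (hx : Cst k x) (hy : Cst k y) : Cst k (x / y) := by
  rw [div_eq_mul_inv]; exact hx.mul hy.inv
theorem Cst.pow {x : C} (hx : Cst k x) (n : ℕ) : Cst k (x ^ n) := by
  obtain ⟨a, rfl⟩ := hx; exact ⟨a ^ n, map_pow _ _ _⟩
theorem Cst.zpow {x : C} (hx : Cst k x) (n : ℤ) : Cst k (x ^ n) := by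
  obtain ⟨a, rfl⟩ := hx; exact ⟨a ^ n, map_zpow₀ _ _ _⟩

/-- algebraic elements are constant -/
theorem cst_of_algebraic [IsAlgClosed k] {x : C} (hx : IsAlgebraic k x) : Cst k x := by
  have h1 : (minpoly k x).degree = 1 :=
    IsAlgClosed.degree_eq_one_of_irreducible k (minpoly.irreducible hx.isIntegral)
  exact minpoly.mem_range_of_degree_eq_one k x h1

theorem transcendental_of [IsAlgClosed k] {x : C} (hx : ¬ Cst k x) : Transcendental k x :=
  fun h => hx (cst_of_algebraic h)

theorem cst_of_pow [IsAlgClosed k] {x : C} {n : ℕ} (hn : n ≠ 0) (hx : Cst k (x ^ n)) : Cst k x := by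
  obtain ⟨a, ha⟩ := hx
  apply cst_of_algebraic
  refine ⟨X ^ n - Polynomial.C a, ?_, ?_⟩
  · exact X_pow_sub_C_ne_zero (Nat.pos_of_ne_zero hn) a
  · simp [ha]

/-- **Descent.** If `X ^ N` and `(1 - X) ^ N` lie in `F` and `X` is not constant then `X` lies
in `F`. -/
theorem mem_of_pow [IsAlgClosed k] [IsAlgClosed C] [CharZero k] (F : IntermediateField k C) {x : C}
    (hx : ¬ Cst k x) {N : ℕ} (hN : N ≠ 0) (h1 : x ^ N ∈ F) (h2 : (1 - x) ^ N ∈ F) : x ∈ F := by
  classical
  have hx0 : x ≠ 0 := fun h => hx (h ▸ cst_zero)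
  have hx1 : 1 - x ≠ 0 := fun h => hx (by rw [← sub_eq_zero.mp h]; exact cst_one)
  have hint : IsIntegral F x := by
    refine ⟨X ^ N - Polynomial.C ⟨x ^ N, h1⟩, monic_X_pow_sub_C _ hN, ?_⟩
    rw [← Polynomial.aeval_def, map_sub, map_pow, aeval_X, aeval_C]
    exact sub_self _
  set m := minpoly F x with hm
  have hd1 : m ∣ X ^ N - Polynomial.C ⟨x ^ N, h1⟩ := by
    apply minpoly.dvd
    rw [map_sub, map_pow, aeval_X, aeval_C]
    exact sub_self _
  have hd2 : m ∣ (1 - X) ^ N - Polynomial.C ⟨(1 - x) ^ N, h2⟩ := by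
    apply minpoly.dvd
    rw [map_sub, map_pow, map_sub, map_one, aeval_X, aeval_C]
    exact sub_self _
  have hroots : ∀ y : C, aeval y m = 0 → y = x := by
    intro y hy
    have e1 : y ^ N = x ^ N := by
      obtain ⟨q, hq⟩ := hd1
      have := congrArg (aeval y) hq
      rw [map_mul, hy, zero_mul, map_sub, map_pow, aeval_X, aeval_C, sub_eq_zero] at this
      exact this
    have e2 : (1 - y) ^ N = (1 - x) ^ N := by
      obtain ⟨q, hq⟩ := hd2
      have := congrArg (aeval y) hq
      rw [map_mul, hy, zero_mul, map_sub, map_pow, map_sub, map_one, aeval_X, aeval_C,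
        sub_eq_zero] at this
      exact this
    have c1 : Cst k (y / x) := cst_of_pow hN (by
      rw [div_pow, e1, div_self (pow_ne_zero _ hx0)]; exact cst_one)
    have c2 : Cst k ((1 - y) / (1 - x)) := cst_of_pow hN (by
      rw [div_pow, e2, div_self (pow_ne_zero _ hx1)]; exact cst_one)
    set z := y / x with hz
    set w := (1 - y) / (1 - x) with hw
    have hy' : y = z * x := by rw [hz]; field_simp
    have hy'' : 1 - y = w * (1 - x) := by rw [hw]; field_simp
    have key : (z - w) * x = 1 - w := by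
      rw [hy'] at hy''
      linear_combination -hy''
    by_cases hzw : z = w
    · rw [hzw, sub_self, zero_mul] at key
      have : z = 1 := by rw [hzw]; linear_combination key
      rw [hy', this, one_mul]
    · exfalso
      apply hx
      have hne : z - w ≠ 0 := sub_ne_zero.mpr hzw
      have : x = (1 - w) / (z - w) := by
        field_simp
        linear_combination key
      rw [this]
      exact (cst_one.sub c2).div (c1.sub c2)
  have hcf : CharZero F := charZero_of_injective_algebraMap (algebraMap k F).injective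
  have hsep : m.Separable := (minpoly.irreducible hint).separable
  have hspl : (m.map (algebraMap F C)).Splits := IsAlgClosed.splits _
  have hcard := hspl.natDegree_eq_card_roots
  have hnodup : (m.map (algebraMap F C)).roots.Nodup :=
    nodup_roots hsep.map
  have hle : Multiset.card (m.map (algebraMap F C)).roots ≤ 1 := by
    rw [← Multiset.toFinset_card_of_nodup hnodup, Finset.card_le_one]
    intro a ha b hb
    rw [Multiset.mem_toFinset, mem_roots', IsRoot, eval_map_algebraMap] at ha hb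
    rw [hroots a ha.2, hroots b hb.2]
  rw [← hcard, natDegree_map] at hle
  have hpos : 0 < m.natDegree := minpoly.natDegree_pos hint
  have hone : m.natDegree = 1 := le_antisymm hle hpos
  have := (minpoly.natDegree_eq_one_iff).mp hone
  obtain ⟨y, hy⟩ := this
  rw [← hy]
  exact y.2

/-- equality of polynomials from equality at a nonconstant element -/
theorem poly_eq [IsAlgClosed k] {A : C} (hA : ¬ Cst k A) {f g : k[X]}
    (h : aeval A f = aeval A g) : f = g :=
  (transcendental_iff_injective.mp (transcendental_of hA)) h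

/-- a polynomial with roots `0, 1` only -/
theorem factor [IsAlgClosed k] {f : k[X]} (hf : f ≠ 0) (hr : ∀ r, f.eval r = 0 → r = 0 ∨ r = 1) :
    ∃ (c : k) (i j : ℕ), c ≠ 0 ∧ f = Polynomial.C c * X ^ i * (1 - X) ^ j := by
  obtain ⟨g, hg, hg0⟩ := exists_eq_pow_rootMultiplicity_mul_and_not_dvd f hf 0
  have hgne : g ≠ 0 := fun h => hf (by rw [hg, h, mul_zero])
  obtain ⟨g', hg', hg1⟩ := exists_eq_pow_rootMultiplicity_mul_and_not_dvd g hgne 1
  have hgne' : g' ≠ 0 := fun h => hgne (by rw [hg', h, mul_zero])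
  have hnr : ∀ r, g'.eval r ≠ 0 := by
    intro r hr'
    have h1 : g.eval r = 0 := by rw [hg', eval_mul, hr', mul_zero]
    have h2 : f.eval r = 0 := by rw [hg, eval_mul, h1, mul_zero]
    rcases hr r h2 with rfl | rfl
    · exact hg0 (dvd_iff_isRoot.mpr h1)
    · exact hg1 (dvd_iff_isRoot.mpr hr')
  have hdeg : g'.degree = 0 := by
    by_contra hne
    obtain ⟨r, hr'⟩ := IsAlgClosed.exists_root g' hne
    exact hnr r hr'
  obtain ⟨c, hc⟩ : ∃ c, g' = Polynomial.C c := ⟨_, eq_C_of_degree_eq_zero hdeg⟩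
  have hc0 : c ≠ 0 := fun h => hgne' (by rw [hc, h, map_zero])
  set i := f.rootMultiplicity 0
  set j := g.rootMultiplicity 1
  refine ⟨c * (-1) ^ j, i, j, mul_ne_zero hc0 (pow_ne_zero _ (by norm_num)), ?_⟩
  have e1 : f = (X - Polynomial.C 0) ^ i * ((X - Polynomial.C 1) ^ j * Polynomial.C c) := by
    rw [← hc, ← hg', ← hg]
  have e2 : (X - Polynomial.C 1 : k[X]) ^ j = Polynomial.C ((-1) ^ j) * (1 - X) ^ j := by
    rw [map_pow, ← mul_pow]
    congr 1
    rw [map_neg, map_one]
    ring
  rw [e1, e2, map_zero, sub_zero, map_mul]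
  ring

/-- splitting of an integer power -/
theorem zpow_split {x : C} (hx : x ≠ 0) (n : ℤ) : x ^ n * x ^ (-n).toNat = x ^ n.toNat := by
  rw [← zpow_natCast x (-n).toNat, ← zpow_natCast x n.toNat, ← zpow_add₀ hx]
  congr 1
  omega

/-- `A` and `1 - A` are multiplicatively independent modulo constants -/
theorem mult_indep [IsAlgClosed k] {A : C} (hA : ¬ Cst k A) {x y : ℤ}
    (h : Cst k (A ^ x * (1 - A) ^ y)) : x = 0 ∧ y = 0 := by
  have hA0 : A ≠ 0 := fun h => hA (h ▸ cst_zero)
  have hA1 : 1 - A ≠ 0 := fun h => hA (by rw [← sub_eq_zero.mp h]; exact cst_one)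
  obtain ⟨c, hc⟩ := h
  have hc0 : c ≠ 0 := by
    rintro rfl
    rw [map_zero] at hc
    exact mul_ne_zero (zpow_ne_zero _ hA0) (zpow_ne_zero _ hA1) hc.symm
  have key : (X ^ x.toNat * (1 - X) ^ y.toNat : k[X]) =
      Polynomial.C c * (X ^ (-x).toNat * (1 - X) ^ (-y).toNat) := by
    apply poly_eq hA
    simp only [map_mul, map_pow, map_sub, map_one, aeval_X, aeval_C]
    rw [← zpow_split hA0 x, ← zpow_split hA1 y, hc]
    ring
  constructor
  · by_contra hx
    have h0 := congrArg (eval 0) key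
    simp only [eval_mul, eval_pow, eval_X, eval_sub, eval_one, sub_zero, one_pow, mul_one,
      eval_C] at h0
    rcases lt_or_gt_of_ne hx with hlt | hgt
    · have e1 : x.toNat = 0 := by omega
      have e2 : (-x).toNat ≠ 0 := by omega
      rw [e1, zero_pow e2] at h0
      simp at h0
    · have e1 : x.toNat ≠ 0 := by omega
      have e2 : (-x).toNat = 0 := by omega
      rw [e2, zero_pow e1, pow_zero, mul_one] at h0
      exact hc0 h0.symm
  · by_contra hy
    have h0 := congrArg (eval 1) key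
    simp only [eval_mul, eval_pow, eval_X, eval_sub, eval_one, sub_self, one_pow, one_mul,
      eval_C] at h0
    rcases lt_or_gt_of_ne hy with hlt | hgt
    · have e1 : y.toNat = 0 := by omega
      have e2 : (-y).toNat ≠ 0 := by omega
      rw [e1, zero_pow e2] at h0
      simp at h0
    · have e1 : y.toNat ≠ 0 := by omega
      have e2 : (-y).toNat = 0 := by omega
      rw [e2, zero_pow e1, pow_zero, mul_one] at h0
      exact hc0 h0.symm

/-- monomial form of the elements of `k(A)` with a power of this form -/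
theorem mono_of_mem [IsAlgClosed k] {A : C} (hA : ¬ Cst k A) {x : C} (hx0 : x ≠ 0)
    (hx : x ∈ IntermediateField.adjoin k {A}) {N : ℕ} (hN : N ≠ 0) {c : C} (hc : Cst k c)
    {a b : ℤ} (h : x ^ N = c * (A ^ a * (1 - A) ^ b)) :
    ∃ (d : C) (i j : ℤ), Cst k d ∧ x = d * (A ^ i * (1 - A) ^ j) ∧ a = N * i ∧ b = N * j := by
  classical
  have hA0 : A ≠ 0 := fun h => hA (h ▸ cst_zero)
  have hA1 : 1 - A ≠ 0 := fun h => hA (by rw [← sub_eq_zero.mp h]; exact cst_one)
  obtain ⟨c, rfl⟩ := hc
  have hc0 : c ≠ 0 := by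
    rintro rfl
    rw [map_zero, zero_mul] at h
    exact pow_ne_zero _ hx0 h
  obtain ⟨r, s, hrs⟩ := (IntermediateField.mem_adjoin_simple_iff k x).mp hx
  have hs : aeval A s ≠ 0 := by
    intro h0
    rw [h0, div_zero] at hrs
    exact hx0 hrs
  have hsne : s ≠ 0 := by
    rintro rfl
    simp at hs
  have hrne : r ≠ 0 := by
    rintro rfl
    rw [map_zero, zero_div] at hrs
    exact hx0 hrs
  -- make them coprime
  obtain ⟨f, g, hcop, hfg, hf, hg⟩ : ∃ f g : k[X], IsCoprime f g ∧ x = aeval A f / aeval A g ∧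
      f ≠ 0 ∧ g ≠ 0 := by
    obtain ⟨e, u, v, f, g, hf, hg, hb⟩ : ∃ e u v f g : k[X], r = e * f ∧ s = e * g ∧
        e = r * u + s * v := by
      obtain ⟨f, hf⟩ := EuclideanDomain.gcd_dvd_left r s
      obtain ⟨g, hg⟩ := EuclideanDomain.gcd_dvd_right r s
      exact ⟨_, _, _, f, g, hf, hg, EuclideanDomain.gcd_eq_gcd_ab r s⟩
    subst hf hg
    have hene : e ≠ 0 := left_ne_zero_of_mul hsne
    refine ⟨f, g, ⟨u, v, ?_⟩, ?_, right_ne_zero_of_mul hrne, right_ne_zero_of_mul hsne⟩
    · apply mul_left_cancel₀ hene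
      linear_combination -hb
    · have hee : aeval A e ≠ 0 := by
        intro h0
        apply hs
        rw [map_mul, h0, zero_mul]
      rw [hrs, map_mul, map_mul, mul_div_mul_left _ _ hee]
  have hgA : aeval A g ≠ 0 := by
    intro h0
    rw [h0, div_zero] at hfg
    exact hx0 hfg
  have key : f ^ N * (X ^ (-a).toNat * (1 - X) ^ (-b).toNat) =
      Polynomial.C c * g ^ N * (X ^ a.toNat * (1 - X) ^ b.toNat) := by
    apply poly_eq hA
    simp only [map_mul, map_pow, map_sub, map_one, aeval_X, aeval_C]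
    rw [hfg, div_pow] at h
    rw [← zpow_split hA0 a, ← zpow_split hA1 b]
    field_simp at h
    rw [h]
    ring
  have hroot : ∀ r : k, r ≠ 0 → r ≠ 1 → f.eval r ≠ 0 ∧ g.eval r ≠ 0 := by
    intro r h0 h1
    have h1' : 1 - r ≠ 0 := sub_ne_zero.mpr (Ne.symm h1)
    have hk := congrArg (eval r) key
    simp only [eval_mul, eval_pow, eval_X, eval_sub, eval_one, eval_C] at hk
    obtain ⟨u, v, huv⟩ := hcop
    have hcop' := congrArg (eval r) huv
    simp only [eval_add, eval_mul, eval_one] at hcop'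
    constructor
    · intro hf0
      rw [hf0, zero_pow hN, zero_mul] at hk
      have hg0 : g.eval r = 0 := by
        by_contra hg0
        have : c * eval r g ^ N * (r ^ a.toNat * (1 - r) ^ b.toNat) ≠ 0 :=
          mul_ne_zero (mul_ne_zero hc0 (pow_ne_zero _ hg0))
            (mul_ne_zero (pow_ne_zero _ h0) (pow_ne_zero _ h1'))
        exact this hk.symm
      rw [hf0, hg0, mul_zero, mul_zero, add_zero] at hcop'
      exact zero_ne_one hcop'
    · intro hg0
      rw [hg0, zero_pow hN, mul_zero, zero_mul] at hk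
      have hf0 : f.eval r = 0 := by
        by_contra hf0
        have : eval r f ^ N * (r ^ (-a).toNat * (1 - r) ^ (-b).toNat) ≠ 0 :=
          mul_ne_zero (pow_ne_zero _ hf0)
            (mul_ne_zero (pow_ne_zero _ h0) (pow_ne_zero _ h1'))
        exact this hk
      rw [hf0, hg0, mul_zero, mul_zero, add_zero] at hcop'
      exact zero_ne_one hcop'
  obtain ⟨cf, i1, j1, hcf, hf'⟩ := factor hf (fun r hr => by
    by_contra hcon
    push Not at hcon
    exact (hroot r hcon.1 hcon.2).1 hr)
  obtain ⟨cg, i2, j2, hcg, hg'⟩ := factor hg (fun r hr => by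
    by_contra hcon
    push Not at hcon
    exact (hroot r hcon.1 hcon.2).2 hr)
  have hform : x = algebraMap k C (cf / cg) * (A ^ ((i1 : ℤ) - i2) * (1 - A) ^ ((j1 : ℤ) - j2)) := by
    rw [hfg, hf', hg']
    simp only [map_mul, map_pow, map_sub, map_one, aeval_X, aeval_C, map_div₀]
    rw [zpow_sub₀ hA0, zpow_sub₀ hA1, zpow_natCast, zpow_natCast, zpow_natCast, zpow_natCast]
    have h1 : algebraMap k C cg ≠ 0 := by
      rw [Ne, map_eq_zero]; exact hcg
    field_simp
  refine ⟨_, _, _, cst_map _, hform, ?_⟩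
  set i := (i1 : ℤ) - i2
  set j := (j1 : ℤ) - j2
  have h2 : Cst k (A ^ (a - N * i) * (1 - A) ^ (b - N * j)) := by
    rw [hform] at h
    have h3 : A ^ (a - N * i) * (1 - A) ^ (b - N * j) =
        (algebraMap k C (cf / cg)) ^ N / algebraMap k C c := by
      have h4 : algebraMap k C c ≠ 0 := by rw [Ne, map_eq_zero]; exact hc0
      rw [zpow_sub₀ hA0, zpow_sub₀ hA1, mul_comm (N : ℤ) i, mul_comm (N : ℤ) j, zpow_mul, zpow_mul,
        zpow_natCast, zpow_natCast]
      have h5 : (A ^ i) ^ N ≠ 0 := pow_ne_zero _ (zpow_ne_zero _ hA0)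
      have h6 : ((1 - A) ^ j) ^ N ≠ 0 := pow_ne_zero _ (zpow_ne_zero _ hA1)
      rw [mul_pow, mul_pow] at h
      field_simp
      linear_combination -h
    rw [h3]
    exact ((cst_map _).pow N).div (cst_map _)
  obtain ⟨h3, h4⟩ := mult_indep hA h2
  constructor <;> omega

end Pool.Agent.W2helper70.TT
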