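import Pool.Agent.W2helper70.TT.Om

/-!
# Reduced combinations with value zero vanish
-/

set_option autoImplicit false

namespace Pool.Agent.W2helper70.TT

open Complex Polynomial

theorem exists_denom {σ : Type*} (S : Finset σ) (f : σ → ℚ) :
    ∃ N : ℕ, N ≠ 0 ∧ ∀ v ∈ S, ∃ z : ℤ, (z : ℚ) = N * f v := by
  classical
  refine ⟨∏ v ∈ S, (f v).den, Finset.prod_ne_zero_iff.mpr fun v _ => (f v).den_ne_zero, ?_⟩
  intro v hv
  obtain ⟨t, ht⟩ := Finset.dvd_prod_of_mem (fun v => (f v).den) hv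
  refine ⟨t * (f v).num, ?_⟩
  rw [ht]
  push_cast
  have := Rat.mul_den_eq_num (f v)
  rw [← this]; ring

theorem exists_denom2 {σ : Type*} (S : Finset σ) (f g : σ → ℚ) :
    ∃ N : ℕ, N ≠ 0 ∧ (∀ v ∈ S, ∃ z : ℤ, (z : ℚ) = N * f v) ∧
      ∀ v ∈ S, ∃ z : ℤ, (z : ℚ) = N * g v := by
  obtain ⟨N, hN, h1⟩ := exists_denom S f
  obtain ⟨M, hM, h2⟩ := exists_denom S g
  refine ⟨N * M, mul_ne_zero hN hM, ?_, ?_⟩
  · intro v hv
    obtain ⟨z, hz⟩ := h1 v hv
    exact ⟨z * M, by push_cast; rw [hz]; ring⟩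
  · intro v hv
    obtain ⟨z, hz⟩ := h2 v hv
    exact ⟨z * N, by push_cast; rw [hz]; ring⟩

theorem E_part (l : ℂ) {N : ℕ} (hN : N ≠ 0) {q : ℚ} {z : ℤ} (hz : (z : ℚ) = N * q)
    (p : ℚ × QB) : E l (q • p) = E l ((N : ℚ)⁻¹ • p) ^ z := by
  rw [← E_zsmul, ← Int.cast_smul_eq_zsmul ℚ, smul_smul, hz]
  congr 2
  have : (N : ℚ) ≠ 0 := by exact_mod_cast hN
  field_simp

theorem E_root (l : ℂ) {N : ℕ} (hN : N ≠ 0) (p : ℚ × QB) :
    E l ((N : ℚ)⁻¹ • p) ^ N = E l p := by
  have h := E_part l hN (q := 1) (z := N) (by push_cast; ring) p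
  rw [one_smul, zpow_natCast] at h
  exact h.symm

/-- **Vanishing.** -/
theorem vanish {l : ℂ} {m : ℕ} {p : Fin (m + 2) → ℚ × QB} {a : Fin (m + 2) → QB}
    (hp : Function.Injective p) (hp0 : ∀ i, p i ≠ 0)
    (ha : ∀ i, a i ≠ 0) (h : ∑ i, (a i : ℂ) * E l (p i) = 1)
    (φ ψ : (ℚ × QB) →ₗ[ℚ] ℚ) (h0 : φ (p 0) = 1) (hφ : ∀ i : Fin (m + 1), φ (p i.succ) = 0)
    (hψ0 : ψ (p 0) = 0) (hψ1 : ψ (p 1) = 1) (hψ : ∀ i : Fin m, ψ (p i.succ.succ) = 0)
    (S : Finset (ℚ × QB)) (c : ℚ × QB → QB) (hS : ∀ v ∈ S, 0 ≤ φ v ∧ φ v < 1)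
    (hc : ∑ v ∈ S, (c v : ℂ) * E l v = 0) : ∀ v ∈ S, c v = 0 := by
  classical
  have hfree := free_ker ha h φ h0 hφ
  have h1φ : φ (p 1) = 0 := hφ 0
  obtain ⟨N, hN, hNf, hNg⟩ := exists_denom2 S (fun v => φ v) (fun v => ψ v)
  have hNq : (N : ℚ) ≠ 0 := by exact_mod_cast hN
  have hNpos : (0 : ℚ) < N := by exact_mod_cast Nat.pos_of_ne_zero hN
  -- exponents of `x` and `y`
  have hj : ∃ jj : ℚ × QB → ℕ, ∀ v ∈ S, ((jj v : ℕ) : ℚ) = N * φ v := by
    choose! z hz using hNf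
    refine ⟨fun v => (z v).toNat, fun v hv => ?_⟩
    have h1 : 0 ≤ z v := by
      have h2 : (0 : ℚ) ≤ z v := by rw [hz v hv]; exact mul_nonneg hNpos.le (hS v hv).1
      exact_mod_cast h2
    rw [← hz v hv]
    have : ((z v).toNat : ℤ) = z v := Int.toNat_of_nonneg h1
    exact_mod_cast congrArg (fun t : ℤ => (t : ℚ)) this
  obtain ⟨jj, hj⟩ := hj
  choose! zz hzz using hNg
  set K0 : ℕ := ∑ v ∈ S, (zz v).natAbs with hK0
  have hpos : ∀ v ∈ S, 0 ≤ zz v + K0 := by
    intro v hv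
    have h1 : (zz v).natAbs ≤ K0 :=
      Finset.single_le_sum (f := fun v => (zz v).natAbs) (fun _ _ => Nat.zero_le _) hv
    omega
  set ii : ℚ × QB → ℕ := fun v => (zz v + K0).toNat with hii
  have hiv : ∀ v ∈ S, ((ii v : ℕ) : ℤ) = zz v + K0 := fun v hv => Int.toNat_of_nonneg (hpos v hv)
  set x : ℂ := E l ((N : ℚ)⁻¹ • p 0) with hx
  set y : ℂ := E l ((N : ℚ)⁻¹ • p 1) with hy
  have hxN : x ^ N = E l (p 0) := E_root l hN _
  have hyN : y ^ N = E l (p 1) := E_root l hN _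
  have hy0 : y ≠ 0 := E_ne l _
  set w : ℚ × QB → ℚ × QB := fun v => v - φ v • p 0 - ψ v • p 1 with hw
  have hwφ : ∀ v, φ (w v) = 0 := by
    intro v
    simp only [hw, map_sub, map_smul, h0, h1φ, smul_eq_mul]; ring
  have hwψ : ∀ v, ψ (w v) = 0 := by
    intro v
    simp only [hw, map_sub, map_smul, hψ0, hψ1, smul_eq_mul]; ring
  have hE : ∀ v ∈ S, y ^ K0 * E l v = E l (w v) * y ^ ii v * x ^ jj v := by
    intro v hv
    have h1 : v = w v + φ v • p 0 + ψ v • p 1 := by simp only [hw]; abel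
    have h2 : E l (φ v • p 0) = x ^ jj v := by
      have := E_part l hN (q := φ v) (z := jj v) (by rw [← hj v hv]; push_cast; rfl) (p 0)
      rw [this, zpow_natCast]
    have h3 : y ^ K0 * E l (ψ v • p 1) = y ^ ii v := by
      rw [E_part l hN (hzz v hv) (p 1), ← zpow_natCast y (ii v), hiv v hv, zpow_add₀ hy0,
        zpow_natCast, mul_comm]
    conv_lhs => rw [h1]
    rw [E_add, E_add, h2]
    calc y ^ K0 * (E l (w v) * x ^ jj v * E l (ψ v • p 1))
        = E l (w v) * (y ^ K0 * E l (ψ v • p 1)) * x ^ jj v := by ring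
      _ = _ := by rw [h3]
  -- the finite set and its basis
  set F : Set (ℚ × QB) := (w '' S) ∪ Set.range (fun i : Fin m => p i.succ.succ) with hF
  have hFfin : F.Finite := (S.finite_toSet.image w).union (Set.finite_range _)
  obtain ⟨B, hBF, -, hFB, hBli⟩ := exists_linearIndepOn_id_extension (K := ℚ)
    (s := (∅ : Set (ℚ × QB))) (t := F) (linearIndependent_empty ℚ _) (Set.empty_subset F)
  have hBfin : B.Finite := hFfin.subset hBF
  have hFφ : ∀ v ∈ F, φ v = 0 := by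
    rintro v (⟨u, hu, rfl⟩ | ⟨i, rfl⟩)
    · exact hwφ u
    · exact hφ i.succ
  have hFψ : ∀ v ∈ F, ψ v = 0 := by
    rintro v (⟨u, hu, rfl⟩ | ⟨i, rfl⟩)
    · exact hwψ u
    · exact hψ i
  have hBk : B ⊆ LinearMap.ker φ := fun v hv => hFφ v (hBF hv)
  have hspanψ : Submodule.span ℚ B ≤ LinearMap.ker ψ :=
    Submodule.span_le.mpr fun v hv => hFψ v (hBF hv)
  have hp1 : p 1 ∉ Submodule.span ℚ B := by
    intro hcon
    have h1 : ψ (p 1) = 0 := hspanψ hcon
    rw [hψ1] at h1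
    exact one_ne_zero h1
  have hp1cl : E l (p 1) ∉ cl (E l '' B) := hfree.notMem hBfin hBk hBli h1φ hp1
  set s0 : Set ℂ := E l '' B with hs0
  have hFcl : ∀ v ∈ F, E l v ∈ Om s0 := by
    intro v hv
    rw [mem_Om]
    exact E_span (l := l) (s := s0) (B := B)
      (fun v hv => cl_self (Set.mem_image_of_mem _ hv)) (hFB hv)
  have hcst : ∀ z : QB, (z : ℂ) ∈ Om s0 := fun z =>
    mem_Om.mpr (cl_of_alg (mem_algebraicClosure_iff.mp z.2))
  -- transcendence of `y`
  have hytr : Transcendental (Om s0) y := by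
    intro hal
    apply hp1cl
    rw [← mem_Om, ← hyN]
    obtain ⟨z, hz⟩ := cst_of_algebraic hal
    rw [← hz]
    exact pow_mem z.2 N
  -- constants
  set ω : ℚ × QB → Om s0 := fun v =>
    if hv : (c v : ℂ) * E l (w v) ∈ Om s0 then ⟨(c v : ℂ) * E l (w v), hv⟩ else 0 with hω
  have hωv : ∀ v ∈ S, ((ω v : Om s0) : ℂ) = (c v : ℂ) * E l (w v) := by
    intro v hv
    have hm : (c v : ℂ) * E l (w v) ∈ Om s0 :=
      mul_mem (hcst _) (hFcl _ (Or.inl ⟨v, hv, rfl⟩))
    simp only [hω, dif_pos hm]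
  have hsm : (1 : ℂ) - ∑ i : Fin m, (a i.succ.succ : ℂ) * E l (p i.succ.succ) ∈ Om s0 :=
    sub_mem (one_mem _) (sum_mem fun i _ => mul_mem (hcst _) (hFcl _ (Or.inr ⟨i, rfl⟩)))
  have hane : ∀ i, (a i : ℂ) ≠ 0 := fun i hcon => ha i (Subtype.ext hcon)
  have hs1 : (1 : ℂ) - ∑ i : Fin m, (a i.succ.succ : ℂ) * E l (p i.succ.succ) ≠ 0 := by
    intro hcon
    have hli := hfree.li (Finset.univ : Finset (Option (Fin m)))
      (fun o => o.elim 0 (fun i => p i.succ.succ)) (by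
        intro o _ o' _ hoo
        cases o with
        | none =>
          cases o' with
          | none => rfl
          | some j => exact absurd hoo.symm (hp0 _)
        | some i =>
          cases o' with
          | none => exact absurd hoo (hp0 _)
          | some j =>
            have := hp hoo
            rw [Fin.succ_inj, Fin.succ_inj] at this
            rw [this]) (by
        intro o _
        cases o with
        | none => exact Submodule.zero_mem _
        | some i => exact hφ i.succ)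
      (fun o => o.elim 1 (fun i => - a i.succ.succ)) (by
        rw [Fintype.sum_option]
        simp only [Option.elim]
        rw [E_zero, ← hcon]
        have : ∑ i : Fin m, ((-a i.succ.succ : QB) : ℂ) * E l (p i.succ.succ) =
            -∑ i : Fin m, (a i.succ.succ : ℂ) * E l (p i.succ.succ) := by
          rw [← Finset.sum_neg_distrib]
          refine Finset.sum_congr rfl fun i _ => ?_
          push_cast; ring
        rw [this]
        push_cast; ring) none (Finset.mem_univ _)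
    exact one_ne_zero hli
  -- the polynomial
  set Q : (Om s0)[X][X] := ∑ v ∈ S, Polynomial.C (Polynomial.C (ω v) * X ^ ii v) * X ^ jj v with hQ
  have hjlt : ∀ v ∈ S, jj v < N := by
    intro v hv
    have h1 : ((jj v : ℕ) : ℚ) < N := by
      rw [hj v hv]
      calc (N : ℚ) * φ v < N * 1 := by
            exact mul_lt_mul_of_pos_left (hS v hv).2 hNpos
        _ = N := mul_one _
    exact_mod_cast h1
  have hdeg : Q.natDegree < N := by
    have h1 : Q.natDegree ≤ N - 1 := by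
      apply natDegree_sum_le_of_forall_le
      intro v hv
      refine (natDegree_C_mul_X_pow_le _ _).trans ?_
      have := hjlt v hv
      omega
    have := Nat.pos_of_ne_zero hN
    omega
  have hQ0 : Q.eval₂ (aeval y : (Om s0)[X] →ₐ[Om s0] ℂ).toRingHom x = 0 := by
    rw [hQ, eval₂_finsetSum]
    have h1 : ∀ v ∈ S, eval₂ (aeval y : (Om s0)[X] →ₐ[Om s0] ℂ).toRingHom x
        (Polynomial.C (Polynomial.C (ω v) * X ^ ii v) * X ^ jj v) =
        y ^ K0 * ((c v : ℂ) * E l v) := by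
      intro v hv
      rw [eval₂_mul, eval₂_pow, eval₂_X, eval₂_C]
      have h2 : (aeval y : (Om s0)[X] →ₐ[Om s0] ℂ).toRingHom (Polynomial.C (ω v) * X ^ ii v) =
          (c v : ℂ) * E l (w v) * y ^ ii v := by
        show aeval y (Polynomial.C (ω v) * X ^ ii v) = _
        rw [map_mul, map_pow, aeval_X, aeval_C]
        rw [← hωv v hv]
        rfl
      rw [h2]
      have h3 := hE v hv
      calc (c v : ℂ) * E l (w v) * y ^ ii v * x ^ jj v
          = (c v : ℂ) * (E l (w v) * y ^ ii v * x ^ jj v) := by ring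
        _ = _ := by rw [← h3]; ring
    rw [Finset.sum_congr rfl h1, ← Finset.mul_sum, hc, mul_zero]
  have hrel : algebraMap (Om s0) ℂ ⟨(a 0 : ℂ), hcst _⟩ * x ^ N +
      algebraMap (Om s0) ℂ ⟨(a 1 : ℂ), hcst _⟩ * y ^ N = algebraMap (Om s0) ℂ ⟨_, hsm⟩ := by
    rw [hxN, hyN]
    show (a 0 : ℂ) * E l (p 0) + (a 1 : ℂ) * E l (p 1) =
      1 - ∑ i : Fin m, (a i.succ.succ : ℂ) * E l (p i.succ.succ)
    rw [Fin.sum_univ_succ, Fin.sum_univ_succ] at h
    have h5 : (Fin.succ 0 : Fin (m + 2)) = 1 := rfl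
    rw [h5] at h
    rw [← h]; ring
  have na0 : (⟨(a 0 : ℂ), hcst _⟩ : Om s0) ≠ 0 := fun hcon => hane 0 (congrArg Subtype.val hcon)
  have na1 : (⟨(a 1 : ℂ), hcst _⟩ : Om s0) ≠ 0 := fun hcon => hane 1 (congrArg Subtype.val hcon)
  have ns1 : (⟨_, hsm⟩ : Om s0) ≠ 0 := fun hcon => hs1 (congrArg Subtype.val hcon)
  have hQz : Q = 0 := fer (k := Om s0) (C := ℂ) hN na0 na1 ns1 hytr hrel Q hdeg hQ0
  -- coefficients
  intro v0 hv0
  set S' : Finset (ℚ × QB) := S.filter (fun v => jj v = jj v0 ∧ ii v = ii v0) with hS'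
  have hcoef : ∑ v ∈ S', (c v : ℂ) * E l (w v) = 0 := by
    have h1 := congrArg (fun R : (Om s0)[X][X] => ((R.coeff (jj v0)).coeff (ii v0) : Om s0)) hQz
    simp only [hQ, finsetSum_coeff, coeff_C_mul, coeff_X_pow, coeff_zero] at h1
    have h2 : ∀ v ∈ S, ((Polynomial.C (ω v) * X ^ ii v * (if jj v0 = jj v then 1 else 0) :
        (Om s0)[X]).coeff (ii v0) : Om s0) = if (jj v = jj v0 ∧ ii v = ii v0) then ω v else 0 := by
      intro v _
      by_cases h3 : jj v = jj v0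
      · rw [if_pos h3.symm, mul_one, coeff_C_mul, coeff_X_pow]
        by_cases h4 : ii v = ii v0
        · rw [if_pos h4.symm, if_pos ⟨h3, h4⟩, mul_one]
        · rw [if_neg (Ne.symm h4), if_neg (fun hh => h4 hh.2), mul_zero]
      · rw [if_neg (Ne.symm h3), mul_zero, coeff_zero, if_neg (fun hh => h3 hh.1)]
    rw [Finset.sum_congr rfl h2, ← Finset.sum_filter] at h1
    have h5 := congrArg (fun t : Om s0 => (t : ℂ)) h1
    simp only [AddSubmonoidClass.coe_finsetSum, ZeroMemClass.coe_zero] at h5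
    rw [← h5]
    refine Finset.sum_congr rfl fun v hv => ?_
    rw [hωv v (Finset.mem_filter.mp hv).1]
  refine hfree.li S' w ?_ (fun v _ => hwφ v) c hcoef v0
    (Finset.mem_filter.mpr ⟨hv0, rfl, rfl⟩)
  -- injectivity
  have hsame : ∀ v ∈ S', φ v = φ v0 ∧ ψ v = ψ v0 := by
    intro v hv
    obtain ⟨hvS, hvj, hvi⟩ := Finset.mem_filter.mp hv
    constructor
    · have h1 := hj v hvS
      rw [hvj, hj v0 hv0] at h1
      exact (mul_left_cancel₀ hNq h1).symm
    · have h1 : zz v = zz v0 := by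
        have := hiv v hvS
        have h3 := hiv v0 hv0
        rw [hvi] at this
        omega
      have h2 := hzz v hvS
      rw [h1, hzz v0 hv0] at h2
      exact (mul_left_cancel₀ hNq h2).symm
  intro v hv v' hv' hww
  obtain ⟨e1, e2⟩ := hsame v hv
  obtain ⟨e3, e4⟩ := hsame v' hv'
  simp only [hw, e1, e2, e3, e4] at hww
  exact sub_left_injective (sub_left_injective hww)

end Pool.Agent.W2helper70.TT
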